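import Pool.Agent.H32.LP.Bad

/-!
# Asymptotics
-/

set_option autoImplicit false

namespace Pool.Agent.H32.LP

open Finset Polynomial Filter Topology
open Pool.Agent.H373R2.T7 Pool.Agent.H474R2.PG Pool.Agent.W123.RP Pool.Agent.W123.RU.Poly

/-- the fundamental lemma in the form `Fund` -/
lemma fund_of (c : ℕ) (hc : 1 ≤ c) (ε : ℝ) (hε : 0 < ε) : ∃ K x0 : ℕ, 1 ≤ K ∧ ∀ y : ℕ, x0 ≤ y →
    Fund c y ε (√((y ^ K : ℕ) : ℝ)) := by
  obtain ⟨K, x0, hK, h⟩ := sys_fund c hc ε hε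
  refine ⟨K, x0, hK, fun y hy Q hQ N => ?_⟩
  have := h (y ^ K) y hy le_rfl Q hQ N
  unfold Vq
  exact this

/-- the level -/
noncomputable def yl (r X : ℕ) : ℕ := ⌊(X : ℝ) ^ (1 / (r : ℝ))⌋₊

lemma yl_tendsto (r : ℕ) (hr : 1 ≤ r) : Tendsto (fun X : ℕ => yl r X) atTop atTop := by
  have hrr : (0 : ℝ) < r := by exact_mod_cast hr
  exact tendsto_nat_floor_atTop.comp
    ((tendsto_rpow_atTop (by positivity)).comp (tendsto_natCast_atTop_atTop (R := ℝ)))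

lemma yl_le (r X : ℕ) : (yl r X : ℝ) ≤ (X : ℝ) ^ (1 / (r : ℝ)) := Nat.floor_le (by positivity)

lemma sqrt_le (r K X : ℕ) (hr : 1 ≤ r) (hX : 1 ≤ X) :
    √(((yl r X) ^ K : ℕ) : ℝ) ≤ (X : ℝ) ^ ((K : ℝ) / (2 * r)) := by
  have hX0 : (0 : ℝ) < X := by exact_mod_cast hX
  have hrr : (0 : ℝ) < r := by exact_mod_cast hr
  apply Real.sqrt_le_iff.2
  refine ⟨by positivity, ?_⟩
  push_cast
  calc ((yl r X : ℕ) : ℝ) ^ K ≤ ((X : ℝ) ^ (1 / (r : ℝ))) ^ K :=
        pow_le_pow_left₀ (Nat.cast_nonneg _) (yl_le r X) K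
    _ = ((X : ℝ) ^ ((K : ℝ) / (2 * r))) ^ 2 := by
      rw [← Real.rpow_natCast, ← Real.rpow_natCast, ← Real.rpow_mul hX0.le, ← Real.rpow_mul hX0.le]
      congr 1
      push_cast
      field_simp

variable {ι : Type} [Fintype ι]

/-- a power saving is smaller than the main term -/
lemma small_of (f : ι → ℤ[X]) (hf : Sys f) (r : ℕ) (hr : 1 ≤ r) (C δ η : ℝ) (hδ : 0 < δ)
    (hη : 0 < η) : ∀ᶠ X : ℕ in atTop, C * (X : ℝ) ^ (1 - δ) ≤ η * (X * Vq (Q f) (yl r X)) := by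
  obtain ⟨v, Cv, hv, -, hV⟩ := V_bounds f hf
  have h1 := Pool.Agent.TH464.PW.logpow_rpow (Fintype.card ι) ((|C| + 1) / (η * v)) δ (by positivity) hδ
  have h2 := (yl_tendsto r hr).eventually_ge_atTop 3
  filter_upwards [h1, h2, eventually_ge_atTop 3] with X h1 h2 h3
  have hX1 : (1 : ℝ) < X := by exact_mod_cast (by omega : 1 < X)
  have hX0 : (0 : ℝ) < X := by linarith
  have hlog : 0 < Real.log X := Real.log_pos hX1
  have hy3 : (3 : ℝ) ≤ (yl r X : ℝ) := by exact_mod_cast h2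
  have hlogy : 0 < Real.log (yl r X) := Real.log_pos (by linarith)
  have hyX : (yl r X : ℝ) ≤ X := by
    refine (yl_le r X).trans ?_
    calc (X : ℝ) ^ (1 / (r : ℝ)) ≤ (X : ℝ) ^ (1 : ℝ) := by
          apply Real.rpow_le_rpow_of_exponent_le hX1.le
          have : (1 : ℝ) ≤ r := by exact_mod_cast hr
          exact (div_le_one (by linarith)).2 this
      _ = X := Real.rpow_one _
  have hlog2 : Real.log (yl r X) ≤ Real.log X := Real.log_le_log (by linarith) hyX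
  have hV1 : v / Real.log X ^ (Fintype.card ι) ≤ Vq (Q f) (yl r X) := by
    refine le_trans ?_ (hV (yl r X) h2).1
    gcongr
  have e1 : C * (X : ℝ) ^ (1 - δ) ≤ (|C| + 1) * (X / (X : ℝ) ^ δ) := by
    rw [Real.rpow_sub hX0, Real.rpow_one]
    apply mul_le_mul_of_nonneg_right _ (by positivity)
    have := le_abs_self C
    linarith
  refine e1.trans ?_
  have hL : 0 < Real.log X ^ (Fintype.card ι) := by positivity
  have hXδ : 0 < (X : ℝ) ^ δ := by positivity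
  calc (|C| + 1) * (X / (X : ℝ) ^ δ) ≤ η * (X * (v / Real.log X ^ (Fintype.card ι))) := by
        rw [div_mul_eq_mul_div, div_le_iff₀ (by positivity)] at h1
        rw [← mul_div_assoc, ← mul_div_assoc, ← mul_div_assoc, div_le_div_iff₀ hXδ hL]
        nlinarith
    _ ≤ _ := by gcongr

/-- **The number of the sifted integers.** -/
theorem sift_asym (f : ι → ℤ[X]) (hf : Sys f) (η : ℝ) (hη : 0 < η) :
    ∃ r0 : ℕ, 1 ≤ r0 ∧ ∀ r : ℕ, r0 ≤ r → ∀ᶠ X : ℕ in atTop,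
      |((Sift f (yl r X) X).card : ℝ) - X * Vq (Q f) (yl r X)| ≤ η * (X * Vq (Q f) (yl r X)) := by
  classical
  obtain ⟨c, hc, hQ⟩ := exists_c f hf
  obtain ⟨K, x0, hK, hF⟩ := fund_of c hc (η / 6) (by positivity)
  refine ⟨max K 1, le_max_right _ _, fun r hr => ?_⟩
  have hr1 : 1 ≤ r := (le_max_right _ _).trans hr
  have hrK : K ≤ r := (le_max_left _ _).trans hr
  have hrr : (0 : ℝ) < r := by exact_mod_cast hr1
  filter_upwards [small_of f hf r hr1 2 (1 / 2) (η / 2) (by norm_num) (by positivity),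
    (yl_tendsto r hr1).eventually_ge_atTop x0, eventually_ge_atTop 1] with X h1 h2 h3
  set y := yl r X with hy
  have hX1 : (1 : ℝ) ≤ X := by exact_mod_cast h3
  have hs := sqrt_le r K X hr1 h3
  rw [← hy] at hs
  have hs2 : √(((y ^ K : ℕ)) : ℝ) ≤ (X : ℝ) ^ (1 - 1 / 2 : ℝ) := by
    refine hs.trans (Real.rpow_le_rpow_of_exponent_le hX1 ?_)
    rw [div_le_iff₀ (by positivity)]
    have : (K : ℝ) ≤ r := by exact_mod_cast hrK
    linarith
  have hF' := hF y h2 (Q f) hQ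
  have g1 := hF' (2 * X)
  have g2 := hF' X
  rw [abs_le] at g1 g2
  set s := √(((y ^ K : ℕ)) : ℝ) with hs'
  have hcard : (({n ∈ Icc 1 (2 * X) | ∀ p ∈ pz y, ¬ Q f p n}.card : ℕ) : ℝ) =
      (({n ∈ Icc 1 X | ∀ p ∈ pz y, ¬ Q f p n}.card : ℕ) : ℝ) + ((Sift f y X).card : ℝ) := by
    rw [← Nat.cast_add, ← card_union_of_disjoint]
    · congr 2
      ext n
      rw [mem_union, mem_filter, mem_filter, mem_Sift, mem_Icc, mem_Icc]
      constructor
      · rintro ⟨⟨a1, a2⟩, a3⟩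
        rcases Nat.lt_or_ge X n with h | h
        · exact Or.inr ⟨⟨h, a2⟩, a3⟩
        · exact Or.inl ⟨⟨a1, h⟩, a3⟩
      · rintro (⟨⟨a1, a2⟩, a3⟩ | ⟨⟨a1, a2⟩, a3⟩)
        · exact ⟨⟨a1, by omega⟩, a3⟩
        · exact ⟨⟨by omega, a2⟩, a3⟩
    · rw [disjoint_left]
      intro n hn hn'
      rw [mem_filter, mem_Icc] at hn
      rw [mem_Sift] at hn'
      omega
  have hcard' : (({n ∈ Icc 1 (2 * X) | ∀ p ∈ pz y, ¬ Q f p n}.card : ℕ) : ℝ) =
      (({n ∈ Icc 1 X | ∀ p ∈ pz y, ¬ Q f p n}.card : ℕ) : ℝ) + ((Sift f y X).card : ℝ) := hcard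
  push_cast at g1
  set V := Vq (Q f) y with hV
  rw [abs_le]
  constructor <;> nlinarith

end Pool.Agent.H32.LP
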