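import Mathlib

/-!
# Moments of the logarithms of the small prime divisors
-/

set_option autoImplicit false

namespace Pool.Agent.H32.LP

open Finset

/-- the sum over the `j`-tuples of distinct elements of `S` of the products of the logarithms -/
noncomputable def W : ℕ → Finset ℕ → ℝ
  | 0, _ => 1
  | j + 1, S => ∑ p ∈ S, Real.log p * W j (S.erase p)

lemma W_lower (B : ℝ) (hB : 0 ≤ B) (j : ℕ) : ∀ S : Finset ℕ, (∀ p ∈ S, Real.log (p : ℝ) ≤ B) →
    (j : ℝ) * B ≤ ∑ p ∈ S, Real.log (p : ℝ) →
    ∏ t ∈ range j, ((∑ p ∈ S, Real.log (p : ℝ)) - t * B) ≤ W j S := by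
  induction j with
  | zero =>
    intro S _ _
    simp [W]
  | succ j ih =>
    intro S hS hL
    set L := ∑ p ∈ S, Real.log (p : ℝ) with hLdef
    have h1 : ∀ p ∈ S, ∏ t ∈ range j, (L - (t + 1) * B) ≤ W j (S.erase p) := by
      intro p hp
      have e1 : ∑ l ∈ S.erase p, Real.log (l : ℝ) = L - Real.log p := by
        rw [hLdef, ← add_sum_erase S _ hp]
        ring
      have hp1 := hS p hp
      have h2 := ih (S.erase p) (fun l hl => hS l (mem_of_mem_erase hl)) (by
        rw [e1]
        push_cast at hL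
        linarith)
      rw [e1] at h2
      refine le_trans ?_ h2
      apply prod_le_prod
      · intro t ht
        rw [mem_range] at ht
        have ht' : (t : ℝ) + 1 ≤ j := by exact_mod_cast ht
        have : (t + 1) * B ≤ (j + 1 : ℝ) * B := by
          apply mul_le_mul_of_nonneg_right _ hB
          linarith
        push_cast at hL
        linarith
      · intro t _
        linarith
    have h2 : L * ∏ t ∈ range j, (L - (t + 1) * B) ≤ W (j + 1) S := by
      rw [W, hLdef, sum_mul]
      apply sum_le_sum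
      intro p hp
      exact mul_le_mul_of_nonneg_left (h1 p hp) (Real.log_natCast_nonneg p)
    refine le_trans (le_of_eq ?_) h2
    rw [prod_range_succ']
    push_cast
    ring

open Classical in
/-- **The moment bound.** -/
theorem moment (A D : Finset ℕ) (dv : ℕ → ℕ → Prop) (ρ : ℕ → ℝ) (hρ : ∀ p, 0 ≤ ρ p) (M E : ℝ)
    (hM : 0 ≤ M) (hE : 0 ≤ E) (J : ℕ) (h : ∀ T ⊆ D, T.card ≤ J →
      ((A.filter (fun m => ∀ p ∈ T, dv p m)).card : ℝ) ≤ (∏ p ∈ T, ρ p) * (M / ∏ p ∈ T, (p : ℝ) + E)) :
    ∀ j : ℕ, ∀ T ⊆ D, j + T.card ≤ J →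
      ∑ m ∈ A.filter (fun m => ∀ p ∈ T, dv p m), W j ((D.filter (fun p => dv p m)) \ T) ≤
        (∏ p ∈ T, ρ p) * (M * (∑ p ∈ D, ρ p * Real.log p / p) ^ j / ∏ p ∈ T, (p : ℝ) +
          E * (∑ p ∈ D, ρ p * Real.log p) ^ j) := by
  intro j
  induction j with
  | zero =>
    intro T hT hj
    have h1 := h T hT (by omega)
    simpa [W] using h1
  | succ j ih =>
    intro T hT hj
    obtain ⟨G, hG⟩ : ∃ G, G = ∑ p ∈ D, ρ p * Real.log p / p := ⟨_, rfl⟩
    obtain ⟨H, hH⟩ : ∃ H, H = ∑ p ∈ D, ρ p * Real.log p := ⟨_, rfl⟩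
    rw [← hG, ← hH]
    rw [← hG, ← hH] at ih
    have e1 : ∑ m ∈ A.filter (fun m => ∀ p ∈ T, dv p m), W (j + 1) ((D.filter (fun p => dv p m)) \ T) =
        ∑ p ∈ D \ T, Real.log p * ∑ m ∈ A.filter (fun m => ∀ l ∈ insert p T, dv l m),
          W j ((D.filter (fun l => dv l m)) \ insert p T) := by
      have e2 : ∀ m ∈ A.filter (fun m => ∀ p ∈ T, dv p m),
          W (j + 1) ((D.filter (fun p => dv p m)) \ T) = ∑ p ∈ D \ T,
            (if dv p m then Real.log p * W j ((D.filter (fun l => dv l m)) \ insert p T) else 0) := by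
        intro m _
        rw [W, ← sum_filter]
        apply sum_congr
        · ext p
          simp only [mem_sdiff, mem_filter]
          tauto
        · intro p _
          congr 2
          ext l
          simp only [mem_erase, mem_sdiff, mem_filter, mem_insert]
          tauto
      rw [sum_congr rfl e2, sum_comm]
      apply sum_congr rfl
      intro p _
      rw [← sum_filter, filter_filter, mul_sum]
      apply sum_congr
      · ext m
        simp only [mem_filter, mem_insert, forall_eq_or_imp]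
        tauto
      · intro m _
        rfl
    rw [e1]
    have e3 : ∀ p ∈ D \ T, Real.log p * ∑ m ∈ A.filter (fun m => ∀ l ∈ insert p T, dv l m),
          W j ((D.filter (fun l => dv l m)) \ insert p T) ≤
        (∏ l ∈ T, ρ l) * (M * G ^ j / ∏ l ∈ T, (l : ℝ)) * (ρ p * Real.log p / p) +
        (∏ l ∈ T, ρ l) * (E * H ^ j) * (ρ p * Real.log p) := by
      intro p hp
      rw [mem_sdiff] at hp
      have hc := card_insert_of_notMem hp.2
      have h1 := ih (insert p T) (insert_subset hp.1 hT) (by omega)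
      have h2 := mul_le_mul_of_nonneg_left h1 (Real.log_natCast_nonneg p)
      refine h2.trans (le_of_eq ?_)
      rw [prod_insert hp.2, prod_insert hp.2]
      have h3 : M * G ^ j / ((p : ℝ) * ∏ l ∈ T, (l : ℝ)) = (M * G ^ j / ∏ l ∈ T, (l : ℝ)) / p := by
        rw [div_div, mul_comm (p : ℝ)]
      rw [h3]
      ring
    refine (sum_le_sum e3).trans ?_
    rw [sum_add_distrib, ← mul_sum, ← mul_sum]
    have hsub1 : ∑ p ∈ D \ T, ρ p * Real.log p / p ≤ G := by
      rw [hG]
      apply sum_le_sum_of_subset_of_nonneg sdiff_subset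
      intro p _ _
      have := Real.log_natCast_nonneg p
      have := hρ p
      positivity
    have hsub2 : ∑ p ∈ D \ T, ρ p * Real.log p ≤ H := by
      rw [hH]
      apply sum_le_sum_of_subset_of_nonneg sdiff_subset
      intro p _ _
      have := Real.log_natCast_nonneg p
      have := hρ p
      positivity
    have hG0 : 0 ≤ G := by
      rw [hG]
      apply sum_nonneg
      intro p _
      have := Real.log_natCast_nonneg p
      have := hρ p
      positivity
    have hH0 : 0 ≤ H := by
      rw [hH]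
      apply sum_nonneg
      intro p _
      have := Real.log_natCast_nonneg p
      have := hρ p
      positivity
    have hR0 : 0 ≤ ∏ l ∈ T, ρ l := prod_nonneg fun l _ => hρ l
    have hP0 : 0 ≤ ∏ l ∈ T, (l : ℝ) := prod_nonneg fun l _ => Nat.cast_nonneg l
    have k1 : (∏ l ∈ T, ρ l) * (M * G ^ j / ∏ l ∈ T, (l : ℝ)) * ∑ p ∈ D \ T, ρ p * Real.log p / p ≤
        (∏ l ∈ T, ρ l) * (M * G ^ j / ∏ l ∈ T, (l : ℝ)) * G :=
      mul_le_mul_of_nonneg_left hsub1 (by positivity)
    have k2 : (∏ l ∈ T, ρ l) * (E * H ^ j) * ∑ p ∈ D \ T, ρ p * Real.log p ≤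
        (∏ l ∈ T, ρ l) * (E * H ^ j) * H :=
      mul_le_mul_of_nonneg_left hsub2 (by positivity)
    refine (add_le_add k1 k2).trans (le_of_eq ?_)
    rw [pow_succ, pow_succ]
    ring

end Pool.Agent.H32.LP
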