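import Pool.Agent.H32.LP.Sum

/-!
# Square divisors and the size of the values
-/

set_option autoImplicit false

namespace Pool.Agent.H32.LP

open Finset Polynomial Filter
open Pool.Agent.H373R2.T7 Pool.Agent.H474R2.PG Pool.Agent.W123.RP Pool.Agent.W123.RU.Poly

/-- an irreducible polynomial and its derivative have no common root modulo large primes -/
theorem sep (f : ℤ[X]) (hf : Irreducible f) (hd : 0 < f.natDegree) :
    ∃ B : ℕ, ∀ p : ℕ, B < p → ∀ m : ℤ, (p : ℤ) ∣ f.eval m → ¬ (p : ℤ) ∣ f.derivative.eval m := by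
  have hprim : f.IsPrimitive := hf.isPrimitive hd.ne'
  have hF : Irreducible (f.map (Int.castRingHom ℚ)) :=
    (IsPrimitive.Int.irreducible_iff_irreducible_map_cast hprim).1 hf
  have hcop : IsCoprime (f.map (Int.castRingHom ℚ)) ((derivative f).map (Int.castRingHom ℚ)) := by
    have h1 := hF.separable
    rw [Polynomial.Separable, derivative_map] at h1
    exact h1
  have hinj : Function.Injective (Int.castRingHom ℚ) := RingHom.injective_int _
  have h2 := resultant_ne_zero _ _ hcop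
  rw [natDegree_map_eq_of_injective hinj, natDegree_map_eq_of_injective hinj,
    resultant_map_map f (derivative f) f.natDegree (derivative f).natDegree
      (Int.castRingHom ℚ)] at h2
  obtain ⟨P, Q, -, -, hPQ⟩ := exists_mul_add_mul_eq_C_resultant f (derivative f)
    (le_refl f.natDegree) (le_refl (derivative f).natDegree) (Or.inl hd.ne')
  set R : ℤ := f.resultant (derivative f) f.natDegree (derivative f).natDegree with hR
  have hR0 : R ≠ 0 := by
    intro h0
    apply h2
    rw [h0]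
    simp
  refine ⟨R.natAbs, fun p hp m h1 h3 => ?_⟩
  have h4 := congrArg (fun q : ℤ[X] => q.eval m) hPQ
  simp only [eval_add, eval_mul, eval_C] at h4
  have h5 : (p : ℤ) ∣ R := by
    rw [← h4]
    exact dvd_add (h1.mul_right _) (h3.mul_right _)
  have h6 := Int.natAbs_le_of_dvd_ne_zero h5 hR0
  rw [Int.natAbs_natCast] at h6
  omega

/-- integers of a dyadic interval in a residue class -/
lemma card_class (X P v : ℕ) (hP : 0 < P) :
    (((Ioc X (2 * X)).filter (fun m => m % P = v % P)).card : ℝ) ≤ X / P + 1 := by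
  have h := Nat.Ioc_filter_modEq_card X (2 * X) hP v
  have h1 : ((Ioc X (2 * X)).filter (fun m => m % P = v % P)).card =
      ((Ioc X (2 * X)).filter (fun m => m ≡ v [MOD P])).card := rfl
  rw [h1]
  have hP' : (0 : ℝ) < P := by exact_mod_cast hP
  have h2 : ((((Ioc X (2 * X)).filter (fun m => m ≡ v [MOD P])).card : ℤ) : ℚ) ≤ (X : ℚ) / P + 1 := by
    rw [h]
    push_cast
    apply max_le
    · have g1 := Int.floor_le (((2 * X : ℕ) - (v : ℚ)) / (P : ℚ))
      have g2 := Int.lt_floor_add_one (((X : ℕ) - (v : ℚ)) / (P : ℚ))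
      have g3 : ((2 * X : ℕ) - (v : ℚ)) / (P : ℚ) - (X - (v : ℚ)) / (P : ℚ) = (X : ℚ) / P := by
        push_cast
        ring
      push_cast at *
      linarith
    · positivity
  have h3 : ((((Ioc X (2 * X)).filter (fun m => m ≡ v [MOD P])).card : ℚ) : ℝ) ≤
      (((X : ℚ) / P + 1 : ℚ) : ℝ) := by
    exact_mod_cast h2
  push_cast at h3
  exact h3

open Classical in
/-- integers at which a polynomial is divisible by the square of a large prime -/
theorem count_sq (f : ℤ[X]) (X p : ℕ) (hp : p.Prime)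
    (hsep : ∀ m : ℤ, (p : ℤ) ∣ f.eval m → ¬ (p : ℤ) ∣ f.derivative.eval m) :
    (((Ioc X (2 * X)).filter (fun m : ℕ => (p : ℤ) ^ 2 ∣ f.eval (m : ℤ))).card : ℝ) ≤
      (rho f p : ℝ) * (X / (p : ℝ) ^ 2 + 1) := by
  set R := (range p).filter (fun a : ℕ => (p : ℤ) ∣ f.eval (a : ℤ)) with hR
  have hRc : R.card = rho f p := by
    unfold rho
    rw [hR]
  have hsub : (Ioc X (2 * X)).filter (fun m : ℕ => (p : ℤ) ^ 2 ∣ f.eval (m : ℤ)) ⊆
      R.biUnion (fun a => (Ioc X (2 * X)).filter
        (fun m : ℕ => m % p = a ∧ (p : ℤ) ^ 2 ∣ f.eval (m : ℤ))) := by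
    intro m hm
    rw [mem_filter] at hm
    rw [mem_biUnion]
    refine ⟨m % p, ?_, ?_⟩
    · rw [hR, mem_filter, mem_range]
      refine ⟨Nat.mod_lt _ hp.pos, (per1 f p m).1 ?_⟩
      exact (dvd_pow_self _ two_ne_zero).trans hm.2
    · rw [mem_filter]
      exact ⟨hm.1, rfl, hm.2⟩
  have h1 := (card_le_card hsub).trans card_biUnion_le
  have h2 : (((Ioc X (2 * X)).filter (fun m : ℕ => (p : ℤ) ^ 2 ∣ f.eval (m : ℤ))).card : ℝ) ≤
      ∑ a ∈ R, (((Ioc X (2 * X)).filter
        (fun m : ℕ => m % p = a ∧ (p : ℤ) ^ 2 ∣ f.eval (m : ℤ))).card : ℝ) := by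
    exact_mod_cast h1
  refine h2.trans ?_
  have h3 : ∀ a ∈ R, (((Ioc X (2 * X)).filter
        (fun m : ℕ => m % p = a ∧ (p : ℤ) ^ 2 ∣ f.eval (m : ℤ))).card : ℝ) ≤ X / (p : ℝ) ^ 2 + 1 := by
    intro a _
    rcases ((Ioc X (2 * X)).filter
        (fun m : ℕ => m % p = a ∧ (p : ℤ) ^ 2 ∣ f.eval (m : ℤ))).eq_empty_or_nonempty with h0 | ⟨m0, h0⟩
    · rw [h0, card_empty, Nat.cast_zero]
      positivity
    · rw [mem_filter] at h0
      have h4 : (Ioc X (2 * X)).filter (fun m : ℕ => m % p = a ∧ (p : ℤ) ^ 2 ∣ f.eval (m : ℤ)) ⊆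
          (Ioc X (2 * X)).filter (fun m => m % (p ^ 2) = m0 % (p ^ 2)) := by
        intro m hm
        rw [mem_filter] at hm ⊢
        refine ⟨hm.1, ?_⟩
        have h5 : (p : ℤ) ∣ (m : ℤ) - m0 := by
          have : (m : ℕ) ≡ m0 [MOD p] := by
            rw [Nat.ModEq, hm.2.1, h0.2.1]
          exact (Nat.modEq_iff_dvd.1 this.symm)
        obtain ⟨k, hk⟩ := binomExpansion f (m0 : ℤ) ((m : ℤ) - m0)
        rw [add_sub_cancel] at hk
        have h6 : (p : ℤ) ^ 2 ∣ f.derivative.eval (m0 : ℤ) * ((m : ℤ) - m0) := by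
          have h7 : f.derivative.eval (m0 : ℤ) * ((m : ℤ) - m0) =
              f.eval (m : ℤ) - f.eval (m0 : ℤ) - k * ((m : ℤ) - m0) ^ 2 := by
            rw [hk]; ring
          rw [h7]
          exact dvd_sub (dvd_sub hm.2.2 h0.2.2) ((pow_dvd_pow_of_dvd h5 2).mul_left k)
        have h8 : IsCoprime ((p : ℤ) ^ 2) (f.derivative.eval (m0 : ℤ)) := by
          apply IsCoprime.pow_left
          have h9 := hsep m0 ((dvd_pow_self _ two_ne_zero).trans h0.2.2)
          exact ((Nat.prime_iff_prime_int.1 hp).coprime_iff_not_dvd).2 h9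
        have h10 := h8.dvd_of_dvd_mul_left h6
        have h11 : m0 ≡ m [MOD p ^ 2] := by
          rw [Nat.modEq_iff_dvd]
          push_cast
          exact h10
        exact h11.symm
      have h5 := card_class X (p ^ 2) m0 (pow_pos hp.pos 2)
      push_cast at h5
      exact le_trans (by exact_mod_cast card_le_card h4) h5
  refine (sum_le_sum h3).trans ?_
  rw [sum_const, nsmul_eq_mul, hRc]

/-- lower bound for the values -/
theorem eval_lower (f : ℤ[X]) (hd : 0 < f.natDegree) (hl : 0 < f.leadingCoeff) :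
    ∃ X0 : ℕ, 1 ≤ X0 ∧ ∀ m : ℕ, X0 ≤ m → (m : ℝ) ^ f.natDegree / 2 ≤ ((f.eval (m : ℤ) : ℤ) : ℝ) := by
  set g : ℝ[X] := f.map (Int.castRingHom ℝ) with hg
  have hinj : Function.Injective (Int.castRingHom ℝ) := RingHom.injective_int _
  have hgd : g.natDegree = f.natDegree := natDegree_map_eq_of_injective hinj f
  have hgl : g.leadingCoeff = (f.leadingCoeff : ℝ) := by
    rw [hg, leadingCoeff_map_of_injective hinj]
    rfl
  have hg0 : g ≠ 0 := by
    intro h0
    rw [h0, natDegree_zero] at hgd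
    omega
  have hdeg : g.degree = (X ^ f.natDegree : ℝ[X]).degree := by
    rw [degree_X_pow, degree_eq_natDegree hg0, hgd]
  have h1 := div_tendsto_atTop_leadingCoeff_div_of_degree_eq g (X ^ f.natDegree) hdeg
  rw [leadingCoeff_X_pow, div_one, hgl] at h1
  have hl1 : (1 : ℝ) ≤ (f.leadingCoeff : ℝ) := by exact_mod_cast hl
  have h2 := h1.eventually (lt_mem_nhds (show (1 / 2 : ℝ) < (f.leadingCoeff : ℝ) by linarith))
  have h3 := (tendsto_natCast_atTop_atTop (R := ℝ)).eventually h2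
  obtain ⟨X0, hX0⟩ := eventually_atTop.1 h3
  refine ⟨X0 + 1, by omega, fun m hm => ?_⟩
  have h4 := hX0 m (by omega)
  simp only [eval_pow, eval_X] at h4
  have hm0 : (0 : ℝ) < (m : ℝ) ^ f.natDegree := by
    apply pow_pos
    exact_mod_cast (by omega : 0 < m)
  rw [lt_div_iff₀ hm0] at h4
  have h5 : g.eval (m : ℝ) = ((f.eval (m : ℤ) : ℤ) : ℝ) := by
    rw [hg, eval_map, ← Int.cast_natCast, eval₂_at_intCast]
    simp
  rw [h5] at h4
  linarith

end Pool.Agent.H32.LP
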