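import Pool.Agent.H32.LP.Prog
import Pool.Agent.H32.LP.Moment
import Pool.Agent.H32.LP.Sq

/-!
# The sifted integers at which one of the values has no large prime factor
-/

set_option autoImplicit false

namespace Pool.Agent.H32.LP

open Finset Polynomial Filter
open Pool.Agent.H373R2.T7 Pool.Agent.H474R2.PG Pool.Agent.W123.RP Pool.Agent.W123.RU.Poly

lemma W_nonneg (j : ℕ) : ∀ S : Finset ℕ, 0 ≤ W j S := by
  induction j with
  | zero =>
    intro S
    rw [W]
    exact zero_le_one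
  | succ j ih =>
    intro S
    rw [W]
    exact sum_nonneg fun p _ => mul_nonneg (Real.log_natCast_nonneg p) (ih _)

variable {ι : Type} [Fintype ι]

open Classical in
/-- the sifted integers at which `g` has no prime factor larger than `X ^ α` -/
noncomputable def BadS (f : ι → ℤ[X]) (g : ℤ[X]) (y X : ℕ) (α : ℝ) : Finset ℕ :=
  (Sift f y X).filter (fun m : ℕ => ∀ p : ℕ, p.Prime → (p : ℤ) ∣ g.eval (m : ℤ) → (p : ℝ) ≤ (X : ℝ) ^ α)

open Classical in
theorem bad_le (c y : ℕ) (ε s : ℝ) (hε : 0 ≤ ε) (hs : 0 ≤ s) (hF : Fund c y ε s) (f : ι → ℤ[X])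
    (hQ : PerB (Q f) c) (X : ℕ) (hX : 1 ≤ X) (hy : 1 ≤ y) (i : ι) (g : ℤ[X]) (hg : g = f i) (d : ℕ)
    (α : ℝ) (hα : 0 < α) (j : ℕ) (hjα : (j : ℝ) * α ≤ 1)
    (hsep : ∀ p : ℕ, y < p → ∀ m : ℤ, (p : ℤ) ∣ g.eval m → ¬ (p : ℤ) ∣ g.derivative.eval m)
    (hρ : ∀ p : ℕ, p.Prime → y < p → rho g p ≤ d)
    (heval : ∀ m : ℕ, X < m → (m : ℝ) ^ d / 2 ≤ ((g.eval (m : ℤ) : ℤ) : ℝ))
    (hL : (j : ℝ) * (α * Real.log X) ≤ d * Real.log X - Real.log 2)
    (G0 H0 : ℝ) (hG : ∑ p ∈ pz ⌊(X : ℝ) ^ α⌋₊, (rho g p : ℝ) * Real.log p / p ≤ G0)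
    (hH : ∑ p ∈ pz ⌊(X : ℝ) ^ α⌋₊, (rho g p : ℝ) * Real.log p ≤ H0) :
    ((BadS f g y X α).card : ℝ) *
      ∏ t ∈ range j, (d * Real.log X - Real.log 2 - t * (α * Real.log X)) ≤
      (1 + 3 * ε) * (X * Vq (Q f) y) * G0 ^ j + (1 + 2 * s) * H0 ^ j +
      (d * (X / y + (X : ℝ) ^ α)) *
        ∏ t ∈ range j, (d * Real.log X - Real.log 2 - t * (α * Real.log X)) := by
  obtain ⟨Z, hZ⟩ : ∃ Z, Z = ⌊(X : ℝ) ^ α⌋₊ := ⟨_, rfl⟩
  rw [← hZ] at hG hH
  have hX1 : (1 : ℝ) ≤ X := by exact_mod_cast hX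
  have hX0 : (0 : ℝ) < X := by linarith
  have hy0 : (0 : ℝ) < y := by exact_mod_cast (by omega : 0 < y)
  have hZr : (Z : ℝ) ≤ (X : ℝ) ^ α := by rw [hZ]; exact Nat.floor_le (by positivity)
  have hlX : 0 ≤ Real.log X := Real.log_nonneg hX1
  set D : Finset ℕ := (pz Z).filter (fun p => y < p) with hD
  have hDp : ∀ p ∈ D, p.Prime ∧ y < p ∧ p ≤ Z := by
    intro p hp
    rw [hD, mem_filter, mem_pz] at hp
    exact ⟨hp.1.2, hp.2, hp.1.1⟩
  set V := Vq (Q f) y with hV
  have hV0 : 0 ≤ V := Vq_nonneg _ _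
  set Pr : ℝ := ∏ t ∈ range j, ((d : ℝ) * Real.log X - Real.log 2 - t * (α * Real.log X)) with hPr
  have hB0 : 0 ≤ α * Real.log X := by positivity
  have hfac : ∀ t ∈ range j, 0 ≤ (d : ℝ) * Real.log X - Real.log 2 - t * (α * Real.log X) := by
    intro t ht
    rw [mem_range] at ht
    have h1 : (t : ℝ) ≤ j := by exact_mod_cast ht.le
    have h2 : (t : ℝ) * (α * Real.log X) ≤ j * (α * Real.log X) := mul_le_mul_of_nonneg_right h1 hB0
    linarith
  have hPr0 : 0 ≤ Pr := prod_nonneg hfac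
  -- the moment bound
  have hmom := moment (Sift f y X) D (fun p m => (p : ℤ) ∣ g.eval (m : ℤ)) (fun p => (rho g p : ℝ))
    (fun p => Nat.cast_nonneg _) ((1 + 3 * ε) * (X * V)) (1 + 2 * s) (by positivity) (by positivity) j
    (by
      intro T hT hTj
      have h1 := count_T c y ε s hε hF f hQ X g T (fun p hp => ⟨(hDp p (hT hp)).1, (hDp p (hT hp)).2.1⟩)
        (by
          have h2 : ∏ p ∈ T, p ≤ Z ^ T.card := by
            rw [← prod_const]
            exact prod_le_prod' fun p hp => (hDp p (hT hp)).2.2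
          have h3 : ((Z ^ T.card : ℕ) : ℝ) ≤ X := by
            rw [Nat.cast_pow]
            calc (Z : ℝ) ^ T.card ≤ ((X : ℝ) ^ α) ^ T.card :=
                  pow_le_pow_left₀ (Nat.cast_nonneg _) hZr _
              _ = (X : ℝ) ^ (α * T.card) := by rw [Real.rpow_mul hX0.le, Real.rpow_natCast]
              _ ≤ (X : ℝ) ^ (1 : ℝ) := by
                apply Real.rpow_le_rpow_of_exponent_le hX1
                have h4 : (T.card : ℝ) ≤ j := by exact_mod_cast hTj
                nlinarith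
              _ = X := Real.rpow_one _
          exact h2.trans (by exact_mod_cast h3))
      convert h1)
    j ∅ (empty_subset _) (by simp)
  simp only [notMem_empty, false_implies, implies_true, filter_true, sdiff_empty, prod_empty,
    one_mul, div_one] at hmom
  have hmom' : ∑ m ∈ Sift f y X, W j (D.filter (fun p : ℕ => (p : ℤ) ∣ g.eval (m : ℤ))) ≤
      (1 + 3 * ε) * (X * V) * (∑ p ∈ D, (rho g p : ℝ) * Real.log p / p) ^ j +
      (1 + 2 * s) * (∑ p ∈ D, (rho g p : ℝ) * Real.log p) ^ j := by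
    convert hmom
  -- bad integers without square divisors
  set Sq : Finset ℕ := D.biUnion (fun p => (Ioc X (2 * X)).filter
    (fun m : ℕ => (p : ℤ) ^ 2 ∣ g.eval (m : ℤ))) with hSq
  have hlow : ∀ m ∈ BadS f g y X α \ Sq,
      Pr ≤ W j (D.filter (fun p : ℕ => (p : ℤ) ∣ g.eval (m : ℤ))) := by
    intro m hm
    rw [Finset.mem_sdiff, BadS, mem_filter, mem_Sift] at hm
    obtain ⟨⟨⟨⟨hm1, hm2⟩, hm3⟩, hm4⟩, hm5⟩ := hm
    set F : ℕ := (g.eval (m : ℤ)).natAbs with hF'
    have hev := heval m hm1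
    have hm0 : (0 : ℝ) < m := by
      have : 0 < m := by omega
      exact_mod_cast this
    have hpos : (0 : ℝ) < ((g.eval (m : ℤ) : ℤ) : ℝ) := lt_of_lt_of_le (by positivity) hev
    have hpos' : 0 < g.eval (m : ℤ) := by exact_mod_cast hpos
    have hFe : ((F : ℕ) : ℤ) = g.eval (m : ℤ) := by
      rw [hF', Int.natCast_natAbs, abs_of_pos hpos']
    have hFr : ((F : ℕ) : ℝ) = ((g.eval (m : ℤ) : ℤ) : ℝ) := by
      rw [← hFe]; simp
    have hF0 : F ≠ 0 := by
      intro h0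
      rw [h0] at hFe
      rw [← hFe] at hpos'
      simp at hpos'
    have hdv : ∀ p : ℕ, p ∣ F ↔ (p : ℤ) ∣ g.eval (m : ℤ) := by
      intro p
      rw [← hFe]
      exact Int.natCast_dvd_natCast.symm
    have hpD : ∀ p : ℕ, p.Prime → p ∣ F → p ∈ D := by
      intro p hp hpF
      have h1 := (hdv p).1 hpF
      have h2 := hm4 p hp h1
      rw [hD, mem_filter, mem_pz]
      refine ⟨⟨?_, hp⟩, ?_⟩
      · rw [hZ]
        exact Nat.le_floor h2
      · by_contra h3
        exact hm3 p (mem_pz.2 ⟨by omega, hp⟩) ⟨i, by rw [← hg]; exact h1⟩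
    have hpf : F.primeFactors = D.filter (fun p : ℕ => (p : ℤ) ∣ g.eval (m : ℤ)) := by
      ext p
      rw [Nat.mem_primeFactors, mem_filter, ← hdv]
      constructor
      · rintro ⟨h1, h2, _⟩
        exact ⟨hpD p h1 h2, h2⟩
      · rintro ⟨h1, h2⟩
        exact ⟨(hDp p h1).1, h2, hF0⟩
    have hsf : Squarefree F := by
      rw [Nat.squarefree_iff_prime_squarefree]
      intro p hp h1
      apply hm5
      have h2 : p ∣ F := (dvd_mul_right p p).trans h1
      rw [hSq, mem_biUnion]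
      refine ⟨p, hpD p hp h2, ?_⟩
      rw [mem_filter, mem_Ioc]
      refine ⟨⟨hm1, hm2⟩, ?_⟩
      rw [← hFe, sq]
      exact_mod_cast h1
    have hlogF : Real.log F = ∑ p ∈ D.filter (fun p : ℕ => (p : ℤ) ∣ g.eval (m : ℤ)), Real.log (p : ℝ) := by
      rw [← hpf]
      conv_lhs => rw [← Nat.prod_primeFactors_of_squarefree hsf]
      rw [Nat.cast_prod, Real.log_prod]
      intro p hp
      exact_mod_cast (Nat.prime_of_mem_primeFactors hp).ne_zero
    have hLF : (d : ℝ) * Real.log X - Real.log 2 ≤ Real.log F := by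
      have h1 : (X : ℝ) ^ d / 2 ≤ F := by
        rw [hFr]
        refine le_trans ?_ hev
        have : (X : ℝ) ≤ m := by exact_mod_cast hm1.le
        gcongr
      have h2 := Real.log_le_log (by positivity) h1
      rw [Real.log_div (by positivity) (by norm_num), Real.log_pow] at h2
      exact h2
    have hW := W_lower (α * Real.log X) hB0 j (D.filter (fun p : ℕ => (p : ℤ) ∣ g.eval (m : ℤ)))
      (by
        intro p hp
        rw [mem_filter] at hp
        have h1 := (hDp p hp.1).2.2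
        have h2 : (p : ℝ) ≤ (X : ℝ) ^ α := le_trans (by exact_mod_cast h1) hZr
        have h3 : (0 : ℝ) < p := by exact_mod_cast (hDp p hp.1).1.pos
        have h4 := Real.log_le_log h3 h2
        rwa [Real.log_rpow hX0] at h4)
      (by
        rw [← hlogF]
        linarith)
    refine le_trans ?_ hW
    rw [← hlogF]
    apply prod_le_prod hfac
    intro t _
    linarith
  have h1 : ((BadS f g y X α \ Sq).card : ℝ) * Pr ≤
      ∑ m ∈ Sift f y X, W j (D.filter (fun p : ℕ => (p : ℤ) ∣ g.eval (m : ℤ))) := by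
    rw [← nsmul_eq_mul, ← sum_const]
    refine (sum_le_sum hlow).trans ?_
    apply sum_le_sum_of_subset_of_nonneg
    · intro m hm
      rw [Finset.mem_sdiff, BadS, mem_filter] at hm
      exact hm.1.1
    · intro m _ _
      exact W_nonneg _ _
  -- the squares
  have hSqc : (Sq.card : ℝ) ≤ d * (X / y + (X : ℝ) ^ α) := by
    have h2 : (Sq.card : ℝ) ≤ ∑ p ∈ D, (((Ioc X (2 * X)).filter
        (fun m : ℕ => (p : ℤ) ^ 2 ∣ g.eval (m : ℤ))).card : ℝ) := by
      exact_mod_cast card_biUnion_le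
    refine h2.trans ?_
    have h3 : ∀ p ∈ D, (((Ioc X (2 * X)).filter
        (fun m : ℕ => (p : ℤ) ^ 2 ∣ g.eval (m : ℤ))).card : ℝ) ≤ d * (X * ((p : ℝ) ^ 2)⁻¹ + 1) := by
      intro p hp
      obtain ⟨g1, g2, g3⟩ := hDp p hp
      refine (count_sq g X p g1 (hsep p g2)).trans ?_
      have h4 : (rho g p : ℝ) ≤ d := by exact_mod_cast hρ p g1 g2
      rw [div_eq_mul_inv]
      gcongr
    refine (sum_le_sum h3).trans ?_
    rw [← mul_sum, sum_add_distrib, ← mul_sum]
    apply mul_le_mul_of_nonneg_left _ (Nat.cast_nonneg d)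
    apply add_le_add
    · rw [div_eq_mul_inv]
      apply mul_le_mul_of_nonneg_left _ hX0.le
      have h5 : D ⊆ Ioc y (max y Z) := by
        intro p hp
        obtain ⟨_, g2, g3⟩ := hDp p hp
        rw [mem_Ioc]
        exact ⟨g2, g3.trans (le_max_right _ _)⟩
      refine (sum_le_sum_of_subset_of_nonneg h5 (fun _ _ _ => by positivity)).trans ?_
      have h6 := sum_Ioc_inv_sq_le_sub (α := ℝ) (show y ≠ 0 by omega) (le_max_left y Z)
      have h7 : (0 : ℝ) ≤ ((max y Z : ℕ) : ℝ)⁻¹ := by positivity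
      linarith
    · rw [sum_const, nsmul_eq_mul, mul_one]
      refine le_trans ?_ hZr
      have h5 : D ⊆ Icc 1 Z := by
        intro p hp
        obtain ⟨g1, _, g3⟩ := hDp p hp
        exact mem_Icc.2 ⟨g1.pos, g3⟩
      have h6 := card_le_card h5
      rw [Nat.card_Icc, Nat.add_sub_cancel] at h6
      exact_mod_cast h6
  have h2 : ((BadS f g y X α).card : ℝ) ≤ ((BadS f g y X α \ Sq).card : ℝ) + Sq.card := by
    have := card_le_card_sdiff_add_card (s := BadS f g y X α) (t := Sq)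
    exact_mod_cast this
  have hG0 : 0 ≤ ∑ p ∈ D, (rho g p : ℝ) * Real.log p / p := sum_nonneg fun p _ => by
    have := Real.log_natCast_nonneg p
    positivity
  have hH0 : 0 ≤ ∑ p ∈ D, (rho g p : ℝ) * Real.log p := sum_nonneg fun p _ => by
    have := Real.log_natCast_nonneg p
    positivity
  have hG1 : ∑ p ∈ D, (rho g p : ℝ) * Real.log p / p ≤ G0 := by
    refine le_trans ?_ hG
    apply sum_le_sum_of_subset_of_nonneg (filter_subset _ _)
    intro p _ _
    have := Real.log_natCast_nonneg p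
    positivity
  have hH1 : ∑ p ∈ D, (rho g p : ℝ) * Real.log p ≤ H0 := by
    refine le_trans ?_ hH
    apply sum_le_sum_of_subset_of_nonneg (filter_subset _ _)
    intro p _ _
    have := Real.log_natCast_nonneg p
    positivity
  have k1 : (1 + 3 * ε) * (X * V) * (∑ p ∈ D, (rho g p : ℝ) * Real.log p / p) ^ j ≤
      (1 + 3 * ε) * (X * V) * G0 ^ j :=
    mul_le_mul_of_nonneg_left (pow_le_pow_left₀ hG0 hG1 j) (by positivity)
  have k2 : (1 + 2 * s) * (∑ p ∈ D, (rho g p : ℝ) * Real.log p) ^ j ≤ (1 + 2 * s) * H0 ^ j :=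
    mul_le_mul_of_nonneg_left (pow_le_pow_left₀ hH0 hH1 j) (by positivity)
  have k3 : ((BadS f g y X α).card : ℝ) * Pr ≤ (((BadS f g y X α \ Sq).card : ℝ) + Sq.card) * Pr :=
    mul_le_mul_of_nonneg_right h2 hPr0
  have k4 : (Sq.card : ℝ) * Pr ≤ d * (X / y + (X : ℝ) ^ α) * Pr :=
    mul_le_mul_of_nonneg_right hSqc hPr0
  have k5 := h1.trans hmom'
  rw [add_mul] at k3
  linarith

end Pool.Agent.H32.LP
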