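import Pool.Agent.H32.LP.Main
import Pool.Graph.R_seed8.TH464.PW.Quad

/-!
# The final form
-/

set_option autoImplicit false

namespace Pool.Agent.H32.LP

open Finset Polynomial Filter Topology
open Pool.Agent.H373R2.T7 Pool.Agent.H474R2.PG Pool.Agent.W123.RP Pool.Agent.W123.RU.Poly

/-- upper bound for the values -/
theorem eval_upper (f : ℤ[X]) (hd : 0 < f.natDegree) :
    ∃ C : ℝ, 0 < C ∧ ∃ X0 : ℕ, 1 ≤ X0 ∧ ∀ m : ℕ, X0 ≤ m →
      ((f.eval (m : ℤ) : ℤ) : ℝ) ≤ C * (m : ℝ) ^ f.natDegree := by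
  set g : ℝ[X] := f.map (Int.castRingHom ℝ) with hg
  have hinj : Function.Injective (Int.castRingHom ℝ) := RingHom.injective_int _
  have hgd : g.natDegree = f.natDegree := natDegree_map_eq_of_injective hinj f
  have hgl : g.leadingCoeff = (f.leadingCoeff : ℝ) := by
    rw [hg, leadingCoeff_map_of_injective hinj]
    rfl
  have hg0 : g ≠ 0 := by
    intro h0
    rw [h0, natDegree_zero] at hgd
    omega
  have hdeg : g.degree = (X ^ f.natDegree : ℝ[X]).degree := by
    rw [degree_X_pow, degree_eq_natDegree hg0, hgd]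
  have h1 := div_tendsto_atTop_leadingCoeff_div_of_degree_eq g (X ^ f.natDegree) hdeg
  rw [leadingCoeff_X_pow, div_one, hgl] at h1
  have h2 := h1.eventually (gt_mem_nhds
    (show (f.leadingCoeff : ℝ) < |(f.leadingCoeff : ℝ)| + 1 by
      have := le_abs_self (f.leadingCoeff : ℝ)
      linarith))
  have h3 := (tendsto_natCast_atTop_atTop (R := ℝ)).eventually h2
  obtain ⟨X0, hX0⟩ := eventually_atTop.1 h3
  refine ⟨|(f.leadingCoeff : ℝ)| + 1, by positivity, X0 + 1, by omega, fun m hm => ?_⟩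
  have h4 := hX0 m (by omega)
  simp only [eval_pow, eval_X] at h4
  have hm0 : (0 : ℝ) < (m : ℝ) ^ f.natDegree := by
    apply pow_pos
    exact_mod_cast (by omega : 0 < m)
  rw [div_lt_iff₀ hm0] at h4
  have h5 : g.eval (m : ℝ) = ((f.eval (m : ℤ) : ℤ) : ℝ) := by
    rw [hg, eval_map, ← Int.cast_natCast, eval₂_at_intCast]
    simp
  rw [h5] at h4
  exact h4.le

variable {ι : Type} [Fintype ι]

/-- the values at the sifted integers have few prime factors -/
theorem few (f : ι → ℤ[X]) (hf : Sys f) (r : ℕ) (hr : 1 ≤ r) : ∀ᶠ X : ℕ in atTop,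
    ∀ m ∈ Sift f (yl r X) X, ∀ i,
      ((f i).eval (m : ℤ)).natAbs.primeFactorsList.length ≤ (f i).natDegree * r := by
  have hrr : (0 : ℝ) < r := by exact_mod_cast hr
  choose C hC X0 hX0 hup using fun i => eval_upper (f i) (hf.deg i)
  choose Y0 hY0 hlow using fun i => eval_lower (f i) (hf.deg i) (hf.lead i)
  have hXr : Tendsto (fun X : ℕ => (X : ℝ) ^ (1 / (r : ℝ))) atTop atTop :=
    (tendsto_rpow_atTop (by positivity)).comp (tendsto_natCast_atTop_atTop (R := ℝ))
  have h1 : ∀ᶠ X : ℕ in atTop, ∀ i, C i * 2 ^ (f i).natDegree ≤ (X : ℝ) ^ (1 / (r : ℝ)) :=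
    eventually_all.2 fun i => hXr.eventually_ge_atTop _
  have h2 : ∀ᶠ X : ℕ in atTop, ∀ i, X0 i + Y0 i ≤ X :=
    eventually_all.2 fun i => eventually_ge_atTop _
  filter_upwards [h1, h2, hXr.eventually_ge_atTop 1, eventually_ge_atTop 1] with X h1 h2 h3 h4
  intro m hm i
  rw [mem_Sift] at hm
  have hX1 : (1 : ℝ) ≤ X := by exact_mod_cast h4
  have hX0' : (0 : ℝ) < X := by linarith
  have hu := hup i m (by have := h2 i; omega)
  have hl := hlow i m (by have := h2 i; omega)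
  have hm0 : (0 : ℝ) < m := by exact_mod_cast (by omega : 0 < m)
  have hpos : (0 : ℝ) < (((f i).eval (m : ℤ) : ℤ) : ℝ) := lt_of_lt_of_le (by positivity) hl
  have hpos' : 0 < (f i).eval (m : ℤ) := by exact_mod_cast hpos
  have hFe : ((((f i).eval (m : ℤ)).natAbs : ℕ) : ℤ) = (f i).eval (m : ℤ) := by
    rw [Int.natCast_natAbs, abs_of_pos hpos']
  have hFr : ((((f i).eval (m : ℤ)).natAbs : ℕ) : ℝ) = (((f i).eval (m : ℤ) : ℤ) : ℝ) := by
    conv_rhs => rw [← hFe]
    simp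
  apply Pool.Agent.W123.RU.length_le _ _ (Int.natAbs_ne_zero.2 hpos'.ne') ((X : ℝ) ^ (1 / (r : ℝ)))
  · intro p hp hpd
    by_contra hcon
    rw [not_lt] at hcon
    apply hm.2 p (mem_pz.2 ⟨Nat.le_floor hcon, hp⟩)
    exact ⟨i, Int.natCast_dvd.2 hpd⟩
  · rw [hFr]
    refine hu.trans ?_
    have hm2 : (m : ℝ) ≤ 2 * X := by exact_mod_cast hm.1.2
    calc C i * (m : ℝ) ^ (f i).natDegree ≤ C i * (2 * (X : ℝ)) ^ (f i).natDegree := by
          have := hC i
          gcongr
      _ = (C i * 2 ^ (f i).natDegree) * (X : ℝ) ^ (f i).natDegree := by rw [mul_pow]; ring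
      _ ≤ (X : ℝ) ^ (1 / (r : ℝ)) * (X : ℝ) ^ (f i).natDegree :=
          mul_le_mul_of_nonneg_right (h1 i) (by positivity)
      _ = ((X : ℝ) ^ (1 / (r : ℝ))) ^ ((f i).natDegree * r + 1) := by
          rw [← Real.rpow_natCast, ← Real.rpow_natCast, ← Real.rpow_mul hX0'.le,
            ← Real.rpow_add hX0']
          congr 1
          push_cast
          field_simp
          ring
  · exact h3

/-- the order of the number of the sifted integers -/
theorem order (f : ι → ℤ[X]) (hf : Sys f) : ∃ r0 : ℕ, 1 ≤ r0 ∧ ∀ r : ℕ, r0 ≤ r → ∃ c : ℝ, 0 < c ∧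
    ∀ᶠ X : ℕ in atTop, c * X / Real.log X ^ (Fintype.card ι) ≤ ((Sift f (yl r X) X).card : ℝ) := by
  obtain ⟨r0, hr0, h⟩ := sift_asym f hf (1 / 2) (by norm_num)
  obtain ⟨v, Cv, hv, -, hV⟩ := V_bounds f hf
  refine ⟨r0, hr0, fun r hr => ⟨v / 2, by positivity, ?_⟩⟩
  have hr1 : 1 ≤ r := hr0.trans hr
  filter_upwards [h r hr, (yl_tendsto r hr1).eventually_ge_atTop 3, eventually_ge_atTop 3]
    with X h1 h2 h3
  have hX1 : (1 : ℝ) < X := by exact_mod_cast (by omega : 1 < X)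
  have hX0 : (0 : ℝ) < X := by linarith
  have hlog : 0 < Real.log X := Real.log_pos hX1
  have hy3 : (3 : ℝ) ≤ (yl r X : ℝ) := by exact_mod_cast h2
  have hlogy : 0 < Real.log (yl r X) := Real.log_pos (by linarith)
  have hyX : (yl r X : ℝ) ≤ X := by
    refine (yl_le r X).trans ?_
    calc (X : ℝ) ^ (1 / (r : ℝ)) ≤ (X : ℝ) ^ (1 : ℝ) := by
          apply Real.rpow_le_rpow_of_exponent_le hX1.le
          have : (1 : ℝ) ≤ r := by exact_mod_cast hr1
          exact (div_le_one (by linarith)).2 this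
      _ = X := Real.rpow_one _
  have hlog2 : Real.log (yl r X) ≤ Real.log X := Real.log_le_log (by linarith) hyX
  have hV1 : v / Real.log X ^ (Fintype.card ι) ≤ Vq (Q f) (yl r X) := by
    refine le_trans ?_ (hV (yl r X) h2).1
    gcongr
  have h4 := (abs_le.1 h1).1
  have h5 : (X : ℝ) * (v / Real.log X ^ (Fintype.card ι)) ≤ X * Vq (Q f) (yl r X) :=
    mul_le_mul_of_nonneg_left hV1 hX0.le
  have e1 : v / 2 * X / Real.log X ^ (Fintype.card ι) =
      1 / 2 * (X * (v / Real.log X ^ (Fintype.card ι))) := by ring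
  rw [e1]
  linarith

/-- the system `m² + 1`, `m² + 3` -/
noncomputable def two : Bool → ℤ[X]
  | false => Pool.Agent.TH464.PW.quad 1 0 1
  | true => Pool.Agent.TH464.PW.quad 1 0 3

lemma not_sq4 : ¬ IsSquare (0 ^ 2 - 4 * 1 * 1 : ℤ) := by
  rintro ⟨a, ha⟩
  nlinarith [mul_self_nonneg a]

lemma not_sq12 : ¬ IsSquare (0 ^ 2 - 4 * 1 * 3 : ℤ) := by
  rintro ⟨a, ha⟩
  nlinarith [mul_self_nonneg a]

lemma one_prim (b c : ℤ) (p : ℕ) (hp : p.Prime) : ¬ ((p : ℤ) ∣ 1 ∧ (p : ℤ) ∣ b ∧ (p : ℤ) ∣ c) := by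
  rintro ⟨h1, -, -⟩
  have h2 : p ∣ 1 := by exact_mod_cast h1
  exact hp.one_lt.ne' (Nat.dvd_one.1 h2)

lemma two_sys : Sys two where
  irr i := by
    cases i
    · exact Pool.Agent.TH464.PW.quad_irr 1 0 1 one_ne_zero (one_prim 0 1) not_sq4
    · exact Pool.Agent.TH464.PW.quad_irr 1 0 3 one_ne_zero (one_prim 0 3) not_sq12
  deg i := by
    cases i
    · rw [two, Pool.Agent.TH464.PW.quad_deg 1 0 1 one_ne_zero]; norm_num
    · rw [two, Pool.Agent.TH464.PW.quad_deg 1 0 3 one_ne_zero]; norm_num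
  lead i := by
    cases i
    · rw [two, Pool.Agent.TH464.PW.quad_lead 1 0 1 one_ne_zero]; norm_num
    · rw [two, Pool.Agent.TH464.PW.quad_lead 1 0 3 one_ne_zero]; norm_num
  inj := by
    intro i i' h
    have h2 := congrArg (fun q : ℤ[X] => q.eval 0) h
    cases i <;> cases i' <;> simp [two, Pool.Agent.TH464.PW.quad_eval] at h2 ⊢
  adm p hp := by
    by_cases hp2 : p = 2
    · subst hp2
      refine ⟨0, fun i => ?_⟩
      cases i <;> simp [two, Pool.Agent.TH464.PW.quad_eval]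
    · by_cases hp3 : p = 3
      · subst hp3
        refine ⟨1, fun i => ?_⟩
        cases i <;> simp [two, Pool.Agent.TH464.PW.quad_eval]
      · refine ⟨0, fun i => ?_⟩
        cases i
        · simp only [two, Pool.Agent.TH464.PW.quad_eval]
          intro h
          have h2 : p ∣ 1 := by exact_mod_cast (by simpa using h : (p : ℤ) ∣ 1)
          exact hp.one_lt.ne' (Nat.dvd_one.1 h2)
        · simp only [two, Pool.Agent.TH464.PW.quad_eval]
          intro h
          have h2 : p ∣ 3 := by exact_mod_cast (by simpa using h : (p : ℤ) ∣ 3)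
          exact hp3 ((Nat.prime_dvd_prime_iff_eq hp Nat.prime_three).1 h2)

end Pool.Agent.H32.LP
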