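import Pool.Agent.H32.LP.Fin

/-!
# The general statement: almost prime values with large prime factors, for systems of polynomials
-/

set_option autoImplicit false

namespace Pool.Agent.H32.LP

open Filter Finset Polynomial
open Pool.Agent.H373R2.T7 Pool.Agent.W123.RU.Poly

/-- no value of the system at `x ∈ (X, 2 X]` has a prime factor `≤ X ^ (1 / r)` -/
def RoughG {ι : Type} (f : ι → ℤ[X]) (r X : ℕ) : Set ℕ :=
  {x | X < x ∧ x ≤ 2 * X ∧ ∀ i, ∀ p : ℕ, p.Prime → (p : ℝ) ≤ (X : ℝ) ^ (1 / (r : ℝ)) →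
    ¬ (p : ℤ) ∣ (f i).eval (x : ℤ)}

variable {ι : Type} [Fintype ι]

lemma roughG_eq (f : ι → ℤ[X]) (r X : ℕ) :
    RoughG f r X = ((Sift f (yl r X) X : Finset ℕ) : Set ℕ) := by
  ext x
  rw [Finset.mem_coe, mem_Sift, RoughG, Set.mem_ofPred_eq, and_assoc]
  refine and_congr_right fun hx => and_congr_right fun _ => ?_
  constructor
  · intro g p hp hQ
    rw [mem_pz] at hp
    obtain ⟨t, ht⟩ := hQ
    have h1 : (p : ℝ) ≤ (X : ℝ) ^ (1 / (r : ℝ)) := le_trans (by exact_mod_cast hp.1) (yl_le r X)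
    exact g t p hp.2 h1 ht
  · intro g t p hp hpX hd
    exact g p (mem_pz.2 ⟨Nat.le_floor hpX, hp⟩) ⟨t, hd⟩

theorem gen (f : ι → ℤ[X]) (hf : Sys f) (θ : ι → ℝ) (j : ι → ℕ)
    (hθ : ∀ i, 0 < θ i ∧ 1 ≤ j i ∧ j i * θ i < 1) (κ : ℝ)
    (hκ : κ < 1 - ∑ i, beta (f i).natDegree (θ i) (j i)) :
    ∃ r₀ : ℕ, 1 ≤ r₀ ∧ ∀ r : ℕ, r₀ ≤ r → ∃ c : ℝ, 0 < c ∧ ∀ᶠ X : ℕ in atTop,
      c * X / Real.log X ^ Fintype.card ι ≤ ((RoughG f r X).ncard : ℝ) ∧
      (∀ x ∈ RoughG f r X, ∀ i,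
        ((f i).eval (x : ℤ)).natAbs.primeFactorsList.length ≤ (f i).natDegree * r) ∧
      κ * ((RoughG f r X).ncard : ℝ) ≤
        ({x | x ∈ RoughG f r X ∧ ∀ i, ∃ p : ℕ, p.Prime ∧ (p : ℤ) ∣ (f i).eval (x : ℤ) ∧
          (X : ℝ) ^ θ i < (p : ℝ)}.ncard : ℝ) := by
  classical
  obtain ⟨ra, hra, ha⟩ := order f hf
  obtain ⟨rb, hrb, hb⟩ := main f hf θ (fun i => (hθ i).1) j (fun i => (hθ i).2.1)
    (fun i => (hθ i).2.2) (1 - ∑ i, beta (f i).natDegree (θ i) (j i) - κ) (by linarith)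
  refine ⟨max ra rb, hra.trans (le_max_left _ _), fun r hr => ?_⟩
  have hr1 : 1 ≤ r := hra.trans ((le_max_left _ _).trans hr)
  obtain ⟨c, hc, hc'⟩ := ha r ((le_max_left _ _).trans hr)
  refine ⟨c, hc, ?_⟩
  filter_upwards [hc', hb r ((le_max_right _ _).trans hr), few f hf r hr1] with X k1 k2 k3
  refine ⟨?_, ?_, ?_⟩
  · rw [roughG_eq, Set.ncard_coe_finset]
    exact k1
  · intro x hx i
    rw [roughG_eq, Finset.mem_coe] at hx
    exact k3 x hx i
  · have e3 : {x | x ∈ RoughG f r X ∧ ∀ i, ∃ p : ℕ, p.Prime ∧ (p : ℤ) ∣ (f i).eval (x : ℤ) ∧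
          (X : ℝ) ^ θ i < (p : ℝ)} = ((GoodS f (yl r X) X θ : Finset ℕ) : Set ℕ) := by
      ext x
      rw [Set.mem_ofPred_eq, roughG_eq, Finset.mem_coe, Finset.mem_coe, mem_GoodS]
    rw [e3, Set.ncard_coe_finset, roughG_eq, Set.ncard_coe_finset]
    refine le_trans (le_of_eq ?_) k2
    ring

/-- the value of `beta` for `θ = 1 / J`, `j = J - 1`, degree one -/
lemma beta_inv (n : ℕ) : beta 1 (1 / ((n : ℝ) + 1)) n = 1 / ((n + 1).factorial : ℝ) := by
  have h : ∀ m : ℕ, m ≤ n → ∏ i ∈ range m, (1 / ((n : ℝ) + 1)) / (((1 : ℕ) : ℝ) - i * (1 / ((n : ℝ) + 1))) =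
      ((n + 1 - m).factorial : ℝ) / ((n + 1).factorial : ℝ) := by
    intro m
    induction m with
    | zero =>
      intro _
      rw [prod_range_zero, Nat.sub_zero, div_self]
      exact_mod_cast (Nat.factorial_pos _).ne'
    | succ m ih =>
      intro hm
      rw [prod_range_succ, ih (by omega)]
      have e1 : n + 1 - m = (n + 1 - (m + 1)) + 1 := by omega
      have e2 : ((n + 1 - m : ℕ) : ℝ) = (n : ℝ) + 1 - m := by
        rw [Nat.cast_sub (by omega)]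
        push_cast
        ring
      have e3 : (0 : ℝ) < (n : ℝ) + 1 - m := by
        have : ((m + 1 : ℕ) : ℝ) ≤ n := by exact_mod_cast hm
        push_cast at this
        linarith
      have e4 : ((n + 1 - m).factorial : ℝ) = ((n : ℝ) + 1 - m) * ((n + 1 - (m + 1)).factorial : ℝ) := by
        rw [← e2, e1, Nat.factorial_succ]
        push_cast
        congr 1
      rw [e4]
      have hn1 : (0 : ℝ) < (n : ℝ) + 1 := by positivity
      have e5 : (((1 : ℕ) : ℝ) - m * (1 / ((n : ℝ) + 1))) = ((n : ℝ) + 1 - m) / ((n : ℝ) + 1) := by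
        field_simp
        push_cast
        ring
      rw [e5]
      field_simp
  unfold beta
  have h1 := h n le_rfl
  rw [h1]
  simp

end Pool.Agent.H32.LP
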