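import Pool.Agent.H32.LP.Asym

/-!
# Simultaneous large prime factors of almost prime values: the main theorem
-/

set_option autoImplicit false

namespace Pool.Agent.H32.LP

open Finset Polynomial Filter Topology
open Pool.Agent.H373R2.T7 Pool.Agent.H474R2.PG Pool.Agent.W123.RP Pool.Agent.W123.RU.Poly

/-- the bound for the proportion -/
noncomputable def beta (d : ℕ) (α : ℝ) (j : ℕ) : ℝ := ∏ t ∈ range j, α / ((d : ℝ) - t * α)

lemma beta_nonneg (d : ℕ) (hd : 1 ≤ d) (α : ℝ) (hα : 0 < α) (j : ℕ) (hj : (j : ℝ) * α < 1) :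
    0 ≤ beta d α j := by
  apply prod_nonneg
  intro t ht
  rw [mem_range] at ht
  have h1 : (t : ℝ) ≤ j := by exact_mod_cast ht.le
  have h2 : (1 : ℝ) ≤ d := by exact_mod_cast hd
  have h3 : 0 ≤ (d : ℝ) - t * α := by nlinarith
  positivity

variable {ι : Type} [Fintype ι]

/-- **Few sifted integers are bad for one of the polynomials.** -/
theorem bad_asym (f : ι → ℤ[X]) (hf : Sys f) (i : ι) (α : ℝ) (hα : 0 < α) (j : ℕ) (hj1 : 1 ≤ j)
    (hj : (j : ℝ) * α < 1) (η : ℝ) (hη : 0 < η) :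
    ∃ r0 : ℕ, 1 ≤ r0 ∧ ∀ r : ℕ, r0 ≤ r → ∀ᶠ X : ℕ in atTop,
      ((BadS f (f i) (yl r X) X α).card : ℝ) ≤
        (beta (f i).natDegree α j + η) * (X * Vq (Q f) (yl r X)) := by
  classical
  obtain ⟨c, hc, hQ⟩ := exists_c f hf
  obtain ⟨g, hg⟩ : ∃ g, g = f i := ⟨_, rfl⟩
  have hirr : Irreducible g := by rw [hg]; exact hf.irr i
  have hdeg : 0 < g.natDegree := by rw [hg]; exact hf.deg i
  have hlead : 0 < g.leadingCoeff := by rw [hg]; exact hf.lead i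
  rw [← hg]
  obtain ⟨d, hd⟩ : ∃ d, d = g.natDegree := ⟨_, rfl⟩
  rw [← hd]
  rw [← hd] at hdeg
  have hd1 : (1 : ℝ) ≤ d := by exact_mod_cast hdeg
  have hjr : (1 : ℝ) ≤ j := by exact_mod_cast hj1
  have hβ0 := beta_nonneg d hdeg α hα j hj
  set β := beta d α j with hβ
  -- the choice of `ε`
  obtain ⟨ε, hε, hε1⟩ : ∃ ε : ℝ, 0 < ε ∧ (1 + 3 * ε) * ((1 + ε) ^ j * β) < β + η / 2 := by
    have hcont : Continuous (fun ε : ℝ => (1 + 3 * ε) * ((1 + ε) ^ j * β)) := by fun_prop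
    have h1 : Tendsto (fun ε : ℝ => (1 + 3 * ε) * ((1 + ε) ^ j * β)) (𝓝 0) (𝓝 β) :=
      hcont.tendsto' 0 β (by simp)
    have h2 := h1.eventually (gt_mem_nhds (show β < β + η / 2 by linarith))
    obtain ⟨ε, h3, h4⟩ := ((h2.filter_mono nhdsWithin_le_nhds).and
      (self_mem_nhdsWithin : Set.Ioi (0 : ℝ) ∈ 𝓝[>] 0)).exists
    exact ⟨ε, h4, h3⟩
  obtain ⟨K, x0, hK, hF⟩ := fund_of c hc ε hε
  obtain ⟨C1, hC1, hth⟩ := theta_le g hirr (by rw [← hd]; exact hdeg) ε hε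
  obtain ⟨C2, hC2, hsu⟩ := sum_le g hirr (by rw [← hd]; exact hdeg) ε hε
  obtain ⟨B1, hB1⟩ := sep g hirr (by rw [← hd]; exact hdeg)
  obtain ⟨B2, hB2⟩ := rho_le g hirr.ne_zero
  obtain ⟨X0, hX0, hev⟩ := eval_lower g (by rw [← hd]; exact hdeg) hlead
  obtain ⟨δ, hδ⟩ : ∃ δ : ℝ, δ = (1 - j * α) / 2 := ⟨_, rfl⟩
  have hδ0 : 0 < δ := by rw [hδ]; linarith
  obtain ⟨r1, hr1⟩ := exists_nat_ge ((K : ℝ) / (2 * δ))
  refine ⟨max r1 1, le_max_right _ _, fun r hr => ?_⟩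
  have hr1' : 1 ≤ r := (le_max_right _ _).trans hr
  have hrr : (0 : ℝ) < r := by exact_mod_cast hr1'
  have hrK : (K : ℝ) / (2 * r) ≤ δ := by
    have h1 : (r1 : ℝ) ≤ r := by exact_mod_cast (le_max_left _ _).trans hr
    rw [div_le_iff₀ (by positivity)]
    rw [div_le_iff₀ (by positivity)] at hr1
    nlinarith
  -- the limit of the main term
  have hlogt : Tendsto (fun X : ℕ => Real.log (X : ℝ)) atTop atTop :=
    Real.tendsto_log_atTop.comp (tendsto_natCast_atTop_atTop (R := ℝ))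
  have hfacd : ∀ t ∈ range j, 0 < (d : ℝ) - t * α := by
    intro t ht
    rw [mem_range] at ht
    have h1 : (t : ℝ) ≤ j := by exact_mod_cast ht.le
    nlinarith
  have hlim1 : ∀ t ∈ range j, Tendsto (fun X : ℕ => ((1 + ε) * (α * Real.log X) + C2) /
      (d * Real.log X - Real.log 2 - t * (α * Real.log X))) atTop
      (𝓝 (((1 + ε) * α) / ((d : ℝ) - t * α))) := by
    intro t ht
    have hinv : Tendsto (fun X : ℕ => (Real.log (X : ℝ))⁻¹) atTop (𝓝 0) :=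
      tendsto_inv_atTop_zero.comp hlogt
    have h1 : Tendsto (fun X : ℕ => ((1 + ε) * α + C2 * (Real.log (X : ℝ))⁻¹) /
        (((d : ℝ) - t * α) - Real.log 2 * (Real.log (X : ℝ))⁻¹)) atTop
        (𝓝 (((1 + ε) * α + C2 * 0) / (((d : ℝ) - t * α) - Real.log 2 * 0))) := by
      apply Tendsto.div
      · exact tendsto_const_nhds.add (hinv.const_mul _)
      · exact tendsto_const_nhds.sub (hinv.const_mul _)
      · rw [mul_zero, sub_zero]
        exact (hfacd t ht).ne'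
    rw [mul_zero, add_zero, mul_zero, sub_zero] at h1
    refine h1.congr' ?_
    filter_upwards [hlogt.eventually_gt_atTop 0] with X hX
    rw [← mul_div_mul_right _ _ hX.ne']
    congr 1
    · field_simp
    · field_simp
      ring
  have hlim : Tendsto (fun X : ℕ => (1 + 3 * ε) * (((1 + ε) * (α * Real.log X) + C2) ^ j /
      ∏ t ∈ range j, (d * Real.log X - Real.log 2 - t * (α * Real.log X)))) atTop
      (𝓝 ((1 + 3 * ε) * ((1 + ε) ^ j * β))) := by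
    have h1 := (tendsto_finsetProd (range j) hlim1).const_mul (1 + 3 * ε)
    have e1 : ∏ t ∈ range j, ((1 + ε) * α) / ((d : ℝ) - t * α) = (1 + ε) ^ j * β := by
      rw [hβ, beta, ← card_range j, ← prod_const, card_range, ← prod_mul_distrib]
      apply prod_congr rfl
      intro t _
      ring
    rw [e1] at h1
    refine h1.congr fun X => ?_
    congr 1
    rw [prod_div_distrib, prod_const, card_range]
  have hlim' := hlim.eventually (gt_mem_nhds hε1)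
  have hfac1 : ∀ᶠ X : ℕ in atTop, ∀ t ∈ range j,
      1 ≤ d * Real.log X - Real.log 2 - t * (α * Real.log X) := by
    rw [eventually_all_finset]
    intro t ht
    have h1 : Tendsto (fun X : ℕ => ((d : ℝ) - t * α) * Real.log X) atTop atTop :=
      hlogt.const_mul_atTop (hfacd t ht)
    filter_upwards [h1.eventually_ge_atTop (1 + Real.log 2)] with X hX
    linarith
  have hLev : ∀ᶠ X : ℕ in atTop, (j : ℝ) * (α * Real.log X) ≤ d * Real.log X - Real.log 2 := by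
    have h1 : Tendsto (fun X : ℕ => ((d : ℝ) - j * α) * Real.log X) atTop atTop :=
      hlogt.const_mul_atTop (by linarith)
    filter_upwards [h1.eventually_ge_atTop (Real.log 2)] with X hX
    linarith
  have hsm1 := small_of f hf r hr1' (3 * (1 + ε + C1) ^ j) δ (η / 6) hδ0 (by positivity)
  have hsm2 := small_of f hf r hr1' (2 * d) (1 / (r : ℝ)) (η / 6) (by positivity) (by positivity)
  have hsm3 := small_of f hf r hr1' d δ (η / 6) hδ0 (by positivity)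
  filter_upwards [hlim', hfac1, hLev, hsm1, hsm2, hsm3,
    (yl_tendsto r hr1').eventually_ge_atTop (x0 + B1 + B2 + 1), eventually_ge_atTop (X0 + 1)]
    with X k1 k2 k3 k4 k5 k6 k7 k8
  obtain ⟨y, hy⟩ : ∃ y, y = yl r X := ⟨_, rfl⟩
  rw [← hy] at k4 k5 k6 k7 ⊢
  have hX1n : 1 ≤ X := by omega
  have hX1 : (1 : ℝ) ≤ X := by exact_mod_cast hX1n
  have hXp : (0 : ℝ) < X := by linarith
  have hXα1 : (1 : ℝ) ≤ (X : ℝ) ^ α := Real.one_le_rpow hX1 hα.le
  have hlX : 0 ≤ Real.log X := Real.log_nonneg hX1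
  have hZ1 : 1 ≤ ⌊(X : ℝ) ^ α⌋₊ := Nat.le_floor (by rw [Nat.cast_one]; exact hXα1)
  have hZle : ((⌊(X : ℝ) ^ α⌋₊ : ℕ) : ℝ) ≤ (X : ℝ) ^ α := Nat.floor_le (by positivity)
  have hs := sqrt_le r K X hr1' hX1n
  rw [← hy] at hs
  set s := √(((y ^ K : ℕ)) : ℝ) with hs'
  have hs0 : 0 ≤ s := Real.sqrt_nonneg _
  have hbad := bad_le c y ε s hε.le hs0 (hF y (by omega)) f hQ X hX1n (by omega) i g hg d α hα j
    hj.le (fun p hp => hB1 p (by omega)) (fun p hpp hp => by rw [hd]; exact hB2 p hpp (by omega))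
    (fun m hm => by rw [hd]; exact hev m (by omega)) k3
    ((1 + ε) * (α * Real.log X) + C2) ((1 + ε + C1) * (X : ℝ) ^ α)
    (by
      refine (hsu _ hZ1).trans ?_
      have h1 : Real.log ((⌊(X : ℝ) ^ α⌋₊ : ℕ) : ℝ) ≤ α * Real.log X := by
        rw [← Real.log_rpow hXp]
        exact Real.log_le_log (by exact_mod_cast hZ1) hZle
      have h2 : (1 + ε) * Real.log ((⌊(X : ℝ) ^ α⌋₊ : ℕ) : ℝ) ≤ (1 + ε) * (α * Real.log X) :=
        mul_le_mul_of_nonneg_left h1 (by linarith)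
      linarith)
    (by
      refine (hth _).trans ?_
      have h2 : (1 + ε) * ((⌊(X : ℝ) ^ α⌋₊ : ℕ) : ℝ) ≤ (1 + ε) * (X : ℝ) ^ α :=
        mul_le_mul_of_nonneg_left hZle (by linarith)
      nlinarith)
  set Pr : ℝ := ∏ t ∈ range j, (d * Real.log X - Real.log 2 - t * (α * Real.log X)) with hPr
  have hPr1 : 1 ≤ Pr := by
    rw [hPr]
    calc (1 : ℝ) = ∏ _t ∈ range j, (1 : ℝ) := by rw [prod_const_one]
      _ ≤ _ := prod_le_prod (fun _ _ => zero_le_one) k2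
  have hPr0 : 0 < Pr := by linarith
  set V := Vq (Q f) y with hV
  have hV0 : 0 ≤ V := Vq_nonneg _ _
  obtain ⟨G, hG⟩ : ∃ G, G = ((1 + ε) * (α * Real.log X) + C2) ^ j := ⟨_, rfl⟩
  rw [← hG] at hbad k1
  -- the error terms
  have t1 : (1 + 2 * s) * ((1 + ε + C1) * (X : ℝ) ^ α) ^ j ≤
      3 * (1 + ε + C1) ^ j * (X : ℝ) ^ (1 - δ) := by
    have h1 : 1 + 2 * s ≤ 3 * (X : ℝ) ^ δ := by
      have h2 : s ≤ (X : ℝ) ^ δ := hs.trans (Real.rpow_le_rpow_of_exponent_le hX1 hrK)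
      have h3 : (1 : ℝ) ≤ (X : ℝ) ^ δ := Real.one_le_rpow hX1 hδ0.le
      linarith
    have h2 : ((X : ℝ) ^ α) ^ j = (X : ℝ) ^ (j * α) := by
      rw [mul_comm, Real.rpow_mul hXp.le, Real.rpow_natCast]
    rw [mul_pow, h2]
    have h3 : (X : ℝ) ^ (1 - δ) = (X : ℝ) ^ δ * (X : ℝ) ^ ((j : ℝ) * α) := by
      rw [← Real.rpow_add hXp]
      congr 1
      rw [hδ]
      ring
    rw [h3]
    have h4 : 0 ≤ (1 + ε + C1) ^ j * (X : ℝ) ^ ((j : ℝ) * α) := by positivity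
    calc (1 + 2 * s) * ((1 + ε + C1) ^ j * (X : ℝ) ^ ((j : ℝ) * α)) ≤
          (3 * (X : ℝ) ^ δ) * ((1 + ε + C1) ^ j * (X : ℝ) ^ ((j : ℝ) * α)) :=
          mul_le_mul_of_nonneg_right h1 h4
      _ = _ := by ring
  have t2 : (X : ℝ) / y ≤ 2 * (X : ℝ) ^ (1 - 1 / (r : ℝ)) := by
    have hy1 : (1 : ℝ) ≤ y := by exact_mod_cast (by omega : 1 ≤ y)
    have h1 : (X : ℝ) ^ (1 / (r : ℝ)) ≤ 2 * y := by
      have := Nat.lt_floor_add_one ((X : ℝ) ^ (1 / (r : ℝ)))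
      rw [hy]
      rw [hy] at hy1
      unfold yl at hy1 ⊢
      linarith
    rw [Real.rpow_sub hXp, Real.rpow_one, ← mul_div_assoc, div_le_div_iff₀ (by linarith)
      (by positivity)]
    nlinarith
  have t3 : (X : ℝ) ^ α ≤ (X : ℝ) ^ (1 - δ) := by
    apply Real.rpow_le_rpow_of_exponent_le hX1
    rw [hδ]
    nlinarith
  have t4 : (d : ℝ) * (X / y + (X : ℝ) ^ α) ≤ η / 3 * (X * V) := by
    have h1 : (d : ℝ) * (X / y) ≤ d * (2 * (X : ℝ) ^ (1 - 1 / (r : ℝ))) := by gcongr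
    have h2 : (d : ℝ) * (X : ℝ) ^ α ≤ d * (X : ℝ) ^ (1 - δ) := by gcongr
    linarith
  -- conclusion
  have u1 : ((BadS f g y X α).card : ℝ) * Pr ≤ ((β + η) * (X * V)) * Pr := by
    have h1 : (1 + 3 * ε) * (X * V) * G ≤ (β + η / 2) * (X * V) * Pr := by
      have h2 : (1 + 3 * ε) * (G / Pr) * (X * V * Pr) ≤ (β + η / 2) * (X * V * Pr) :=
        mul_le_mul_of_nonneg_right k1.le (by positivity)
      have e1 : (1 + 3 * ε) * (G / Pr) * (X * V * Pr) = (1 + 3 * ε) * (X * V) * G := by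
        field_simp
      rw [e1] at h2
      linarith
    have h3 : (1 + 2 * s) * ((1 + ε + C1) * (X : ℝ) ^ α) ^ j ≤ η / 6 * (X * V) * Pr := by
      have h4 : η / 6 * (X * V) ≤ η / 6 * (X * V) * Pr := le_mul_of_one_le_right (by positivity) hPr1
      linarith
    have h5 : (d : ℝ) * (X / y + (X : ℝ) ^ α) * Pr ≤ η / 3 * (X * V) * Pr :=
      mul_le_mul_of_nonneg_right t4 hPr0.le
    have h6 : (β + η) * (X * V) * Pr = (β + η / 2) * (X * V) * Pr + η / 6 * (X * V) * Pr +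
        η / 3 * (X * V) * Pr := by ring
    rw [h6]
    exact hbad.trans (add_le_add (add_le_add h1 h3) h5)
  exact le_of_mul_le_mul_right u1 hPr0

open Classical in
/-- the sifted integers at which each value has a large prime factor -/
noncomputable def GoodS (f : ι → ℤ[X]) (y X : ℕ) (α : ι → ℝ) : Finset ℕ :=
  (Sift f y X).filter (fun m : ℕ => ∀ i, ∃ p : ℕ, p.Prime ∧ (p : ℤ) ∣ (f i).eval (m : ℤ) ∧
    (X : ℝ) ^ (α i) < (p : ℝ))

open Classical in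
lemma mem_GoodS (f : ι → ℤ[X]) (y X : ℕ) (α : ι → ℝ) (m : ℕ) : m ∈ GoodS f y X α ↔
    m ∈ Sift f y X ∧ ∀ i, ∃ p : ℕ, p.Prime ∧ (p : ℤ) ∣ (f i).eval (m : ℤ) ∧
      (X : ℝ) ^ (α i) < (p : ℝ) := by
  unfold GoodS
  rw [mem_filter]

/-- **Main theorem.** -/
theorem main (f : ι → ℤ[X]) (hf : Sys f) (α : ι → ℝ) (hα : ∀ i, 0 < α i) (j : ι → ℕ)
    (hj1 : ∀ i, 1 ≤ j i) (hj : ∀ i, (j i : ℝ) * α i < 1) (η : ℝ) (hη : 0 < η) :
    ∃ r0 : ℕ, 1 ≤ r0 ∧ ∀ r : ℕ, r0 ≤ r → ∀ᶠ X : ℕ in atTop,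
      (1 - ∑ i, beta (f i).natDegree (α i) (j i) - η) * ((Sift f (yl r X) X).card : ℝ) ≤
        ((GoodS f (yl r X) X α).card : ℝ) := by
  classical
  set b : ℝ := ∑ i, beta (f i).natDegree (α i) (j i) with hb
  have hb0 : 0 ≤ b := sum_nonneg fun i _ => beta_nonneg _ (hf.deg i) _ (hα i) _ (hj i)
  set k : ℝ := (Fintype.card ι : ℝ) with hk
  have hk0 : 0 ≤ k := Nat.cast_nonneg _
  obtain ⟨ε, hε, hε1, hε2⟩ : ∃ ε : ℝ, 0 < ε ∧ ε ≤ 1 / 2 ∧ ε * (3 * k + 2 * b + 1) ≤ η := by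
    refine ⟨min (1 / 2) (η / (3 * k + 2 * b + 1)), by positivity, min_le_left _ _, ?_⟩
    have h1 : 0 < 3 * k + 2 * b + 1 := by positivity
    calc min (1 / 2) (η / (3 * k + 2 * b + 1)) * (3 * k + 2 * b + 1) ≤
          η / (3 * k + 2 * b + 1) * (3 * k + 2 * b + 1) :=
          mul_le_mul_of_nonneg_right (min_le_right _ _) h1.le
      _ = η := div_mul_cancel₀ _ h1.ne'
  obtain ⟨r1, hr1, hS⟩ := sift_asym f hf ε hε
  choose R hR1 hR using fun i => bad_asym f hf i (α i) (hα i) (j i) (hj1 i) (hj i) ε hε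
  refine ⟨max r1 (∑ i, R i), le_trans hr1 (le_max_left _ _), fun r hr => ?_⟩
  have hr' : r1 ≤ r := (le_max_left _ _).trans hr
  have hri : ∀ i, R i ≤ r := fun i =>
    (single_le_sum (f := R) (fun _ _ => Nat.zero_le _) (mem_univ i)).trans ((le_max_right _ _).trans hr)
  have hall : ∀ᶠ X : ℕ in atTop, ∀ i, ((BadS f (f i) (yl r X) X (α i)).card : ℝ) ≤
      (beta (f i).natDegree (α i) (j i) + ε) * (X * Vq (Q f) (yl r X)) :=
    eventually_all.2 fun i => hR i r (hri i)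
  filter_upwards [hS r hr', hall] with X h1 h2
  obtain ⟨y, hy⟩ : ∃ y, y = yl r X := ⟨_, rfl⟩
  rw [← hy] at h1 h2 ⊢
  obtain ⟨M, hM⟩ : ∃ M, M = (X : ℝ) * Vq (Q f) y := ⟨_, rfl⟩
  rw [← hM] at h1
  have hM0 : 0 ≤ M := by
    rw [hM]
    exact mul_nonneg (Nat.cast_nonneg _) (Vq_nonneg _ _)
  obtain ⟨S, hS'⟩ : ∃ S, S = ((Sift f y X).card : ℝ) := ⟨_, rfl⟩
  rw [← hS'] at h1 ⊢
  have hS0 : 0 ≤ S := by rw [hS']; exact Nat.cast_nonneg _
  have h3 : M ≤ (1 + 2 * ε) * S := by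
    have g1 := (abs_le.1 h1).1
    have g2 : (1 - ε) * M ≤ S := by linarith
    have g3 := mul_le_mul_of_nonneg_left g2 (show 0 ≤ 1 + 2 * ε by linarith)
    have g4 : 0 ≤ ε * (1 - 2 * ε) * M := mul_nonneg (mul_nonneg hε.le (by linarith)) hM0
    nlinarith
  have hsub : Sift f y X ⊆ GoodS f y X α ∪ univ.biUnion (fun i => BadS f (f i) y X (α i)) := by
    intro m hm
    rw [mem_union, mem_biUnion]
    by_cases h : ∀ i, ∃ p : ℕ, p.Prime ∧ (p : ℤ) ∣ (f i).eval (m : ℤ) ∧ (X : ℝ) ^ (α i) < (p : ℝ)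
    · left
      rw [GoodS, mem_filter]
      exact ⟨hm, h⟩
    · right
      push Not at h
      obtain ⟨i, hi⟩ := h
      refine ⟨i, mem_univ _, ?_⟩
      rw [BadS, mem_filter]
      exact ⟨hm, fun p hp hpd => hi p hp hpd⟩
  have h4 : S ≤ ((GoodS f y X α).card : ℝ) + ∑ i, ((BadS f (f i) y X (α i)).card : ℝ) := by
    have h5 := (card_le_card hsub).trans ((card_union_le _ _).trans
      (Nat.add_le_add_left card_biUnion_le _))
    rw [hS']
    exact_mod_cast h5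
  have h5 : ∑ i, ((BadS f (f i) y X (α i)).card : ℝ) ≤ (b + k * ε) * M := by
    refine (sum_le_sum fun i _ => h2 i).trans (le_of_eq ?_)
    rw [← sum_mul, sum_add_distrib, sum_const, card_univ, nsmul_eq_mul, ← hb, ← hM]
  have h6 : (b + k * ε) * M ≤ (b + k * ε) * ((1 + 2 * ε) * S) :=
    mul_le_mul_of_nonneg_left h3 (by positivity)
  have h7 : (b + k * ε) * (1 + 2 * ε) ≤ b + η := by
    have g1 : k * ε * (2 * ε) ≤ k * ε * 1 := mul_le_mul_of_nonneg_left (by linarith) (by positivity)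
    have g2 : 0 ≤ k * ε := by positivity
    nlinarith
  have h8 : (b + k * ε) * (1 + 2 * ε) * S ≤ (b + η) * S := mul_le_mul_of_nonneg_right h7 hS0
  nlinarith

end Pool.Agent.H32.LP
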