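import Pool.Agent.H32.LP.Gen
import Pool.Graph.R_pool_sql_team_seeded_3997aac3.Q160.FD1

/-!
# The polynomials `X ^ d + k`, `d` odd
-/

set_option autoImplicit false

namespace Pool.Agent.H32.LP

open Filter Finset Polynomial
open Pool.Agent.W123.RU.Poly

/-- `X ^ d + k` -/
noncomputable def pw (d : ℕ) (k : ℤ) : ℤ[X] := X ^ d + C k

lemma pw_eval (d : ℕ) (k : ℤ) (m : ℕ) : (pw d k).eval (m : ℤ) = (m : ℤ) ^ d + k := by
  simp [pw]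

lemma pw_eq (d : ℕ) (k : ℤ) : C ((1 : ℕ) : ℤ) * pw d k = (C ((1 : ℕ) : ℤ) * X + C 0) ^ d - C (-k) := by
  simp [pw]

lemma pw_deg (d : ℕ) (k : ℤ) (hd : 1 ≤ d) : (pw d k).natDegree = d :=
  (Pool.Agent.Q160.FD.F_deg one_pos hd (pw_eq d k)).1

lemma pw_lead (d : ℕ) (k : ℤ) (hd : 1 ≤ d) : 0 < (pw d k).leadingCoeff :=
  (Pool.Agent.Q160.FD.F_deg one_pos hd (pw_eq d k)).2

/-- no fixed prime divisor -/
lemma pw_adm (d : ℕ) (hd : 1 ≤ d) (k : ℤ) (p : ℕ) (hp : p.Prime) : ∃ m : ℕ, ¬ (p : ℤ) ∣ (pw d k).eval (m : ℤ) := by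
  by_cases h : (p : ℤ) ∣ k
  · refine ⟨1, fun h1 => ?_⟩
    rw [pw_eval] at h1
    have h2 : (p : ℤ) ∣ 1 := by
      have := dvd_sub h1 h
      simpa using this
    have h3 : p ∣ 1 := by exact_mod_cast h2
    exact hp.one_lt.ne' (Nat.dvd_one.1 h3)
  · refine ⟨0, fun h1 => h ?_⟩
    rw [pw_eval, Nat.cast_zero, zero_pow (by omega), zero_add] at h1
    exact h1

lemma pw_irr (d : ℕ) (hd : Odd d) (k : ℤ) (hk : ∀ e : ℕ, e ∣ d → 1 < e → ∀ a : ℤ, k ≠ a ^ e) :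
    Irreducible (pw d k) := by
  refine Pool.Agent.Q160.FD.irred (d := 1) one_pos hd (pw_eq d k) ?_ (pw_adm d hd.pos k)
  intro p hp hpd c hc
  have hpodd : Odd p := hd.of_dvd_nat hpd
  apply hk p hpd hp.one_lt (-c)
  rw [hpodd.neg_pow, hc, neg_neg]

end Pool.Agent.H32.LP
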