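import Pool.Agent.H32.LP.Sum

/-!
# Sifted values in progressions
-/

set_option autoImplicit false

namespace Pool.Agent.H32.LP

open Finset Polynomial Filter
open Pool.Agent.H373R2.T7 Pool.Agent.H474R2.PG Pool.Agent.W123.RP Pool.Agent.W123.RU.Poly

/-- the condition along a progression -/
def Qp (Q : ℕ → ℕ → Prop) (a q p n : ℕ) : Prop := ¬ p ∣ q ∧ Q p (a + q * n)

open Classical in
lemma nuB_Qp (Q : ℕ → ℕ → Prop) (c : ℕ) (hQ : PerB Q c) (a q p : ℕ) (hp : p.Prime)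
    (hpq : ¬ p ∣ q) : nuB (Qp Q a q) p = nuB Q p := by
  have : Fact p.Prime := ⟨hp⟩
  have hq0 : (q : ZMod p) ≠ 0 := by
    rw [Ne, ZMod.natCast_eq_zero_iff]
    exact hpq
  have h : ((range p).filter (fun r => Qp Q a q p r)).card = ((range p).filter (fun r => Q p r)).card := by
    refine card_bij (fun r _ => (a + q * r) % p) ?_ ?_ ?_
    · intro r hr
      rw [mem_filter, mem_range] at hr ⊢
      exact ⟨Nat.mod_lt _ hp.pos, (hQ.per p _).1 hr.2.2⟩
    · intro r hr r' hr' h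
      rw [mem_filter, mem_range] at hr hr'
      have h1 : ((a + q * r : ℕ) : ZMod p) = ((a + q * r' : ℕ) : ZMod p) :=
        (ZMod.natCast_eq_natCast_iff' _ _ _).2 h
      push_cast at h1
      have h2 := mul_left_cancel₀ hq0 (add_left_cancel h1)
      have h3 := (ZMod.natCast_eq_natCast_iff' _ _ _).1 h2
      rwa [Nat.mod_eq_of_lt hr.1, Nat.mod_eq_of_lt hr'.1] at h3
    · intro s hs
      rw [mem_filter, mem_range] at hs
      set r : ℕ := (((s : ZMod p) - a) * (q : ZMod p)⁻¹).val with hr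
      have h1 : ((a + q * r : ℕ) : ZMod p) = (s : ZMod p) := by
        push_cast
        rw [hr, ZMod.natCast_val, ZMod.cast_id', id_eq]
        field_simp
        ring
      have h2 := (ZMod.natCast_eq_natCast_iff' _ _ _).1 h1
      rw [Nat.mod_eq_of_lt hs.1] at h2
      refine ⟨r, ?_, h2⟩
      rw [mem_filter, mem_range]
      refine ⟨ZMod.val_lt _, hpq, ?_⟩
      rw [hQ.per p, h2]
      exact hs.2
  unfold nuB
  convert h

open Classical in
lemma perB_Qp (Q : ℕ → ℕ → Prop) (c : ℕ) (hQ : PerB Q c) (a q : ℕ) : PerB (Qp Q a q) c := by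
  refine ⟨fun p n => ?_, fun p hp => ?_⟩
  · unfold Qp
    have h1 : (a + q * n) % p = (a + q * (n % p)) % p := by
      rw [Nat.add_mod, Nat.mul_mod, Nat.add_mod a (q * (n % p)), Nat.mul_mod q (n % p), Nat.mod_mod]
    rw [hQ.per p (a + q * n), hQ.per p (a + q * (n % p)), h1]
  · by_cases hpq : p ∣ q
    · have h : ((range p).filter (fun r => Qp Q a q p r)).card = 0 := by
        rw [card_eq_zero, filter_eq_empty_iff]
        intro r _ h
        exact h.1 hpq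
      have h2 : nuB (Qp Q a q) p = 0 := by
        unfold nuB
        convert h
      omega
    · rw [nuB_Qp Q c hQ a q p hp hpq]
      exact hQ.few p hp

open Classical in
/-- the conclusion of the fundamental lemma -/
def Fund (c y : ℕ) (ε s : ℝ) : Prop := ∀ Q : ℕ → ℕ → Prop, PerB Q c → ∀ N : ℕ,
  |(({n ∈ Icc 1 N | ∀ p ∈ pz y, ¬ Q p n}.card : ℕ) : ℝ) - N * Vq Q y| ≤ ε * (N * Vq Q y) + s

lemma Vq_nonneg (Q : ℕ → ℕ → Prop) (y : ℕ) : 0 ≤ Vq Q y :=
  prod_nonneg fun p hp => one_sub_nonneg Q p (mem_pz.1 hp).2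

lemma Vq_le_one (Q : ℕ → ℕ → Prop) (y : ℕ) : Vq Q y ≤ 1 := by
  apply prod_le_one
  · intro p hp
    exact one_sub_nonneg Q p (mem_pz.1 hp).2
  · intro p _
    have : (0 : ℝ) ≤ (nuB Q p : ℝ) / p := by positivity
    linarith

lemma Vq_Qp (Q : ℕ → ℕ → Prop) (c : ℕ) (hQ : PerB Q c) (a q y : ℕ) (h : ∀ p ∈ pz y, ¬ p ∣ q) :
    Vq (Qp Q a q) y = Vq Q y := by
  unfold Vq
  exact prod_congr rfl fun p hp => by rw [nuB_Qp Q c hQ a q p (mem_pz.1 hp).2 (h p hp)]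

open Classical in
/-- sifted integers in a progression -/
theorem count_prog (c y : ℕ) (ε s : ℝ) (hε : 0 ≤ ε) (hF : Fund c y ε s) (Q : ℕ → ℕ → Prop)
    (hQ : PerB Q c) (X q a : ℕ) (hq : 0 < q) (ha : a < q) (hqX : q ≤ X)
    (hcop : ∀ p ∈ pz y, ¬ p ∣ q) :
    (({m ∈ Ioc X (2 * X) | m % q = a ∧ ∀ p ∈ pz y, ¬ Q p m}.card : ℕ) : ℝ) ≤
      (1 + 3 * ε) * (X * Vq Q y) / q + (1 + 2 * s) := by
  obtain ⟨N0, hN0⟩ : ∃ N0, N0 = (X - a) / q := ⟨_, rfl⟩
  obtain ⟨N1, hN1⟩ : ∃ N1, N1 = (2 * X - a) / q := ⟨_, rfl⟩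
  have hN01 : N0 ≤ N1 := by
    rw [hN0, hN1]
    exact Nat.div_le_div_right (by omega)
  have h1 : ({m ∈ Ioc X (2 * X) | m % q = a ∧ ∀ p ∈ pz y, ¬ Q p m}.card : ℕ) ≤
      {n ∈ Ioc N0 N1 | ∀ p ∈ pz y, ¬ Qp Q a q p n}.card := by
    apply card_le_card_of_injOn (fun m => m / q)
    · intro m hm
      rw [mem_coe, mem_filter, mem_Ioc] at hm
      obtain ⟨⟨h1, h2⟩, h3, h4⟩ := hm
      have h5 : q * (m / q) + a = m := by
        have := Nat.div_add_mod m q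
        omega
      rw [mem_coe, mem_filter, mem_Ioc]
      refine ⟨⟨?_, ?_⟩, ?_⟩
      · show N0 < m / q
        rw [hN0, Nat.div_lt_iff_lt_mul hq, mul_comm]
        omega
      · show m / q ≤ N1
        rw [hN1, Nat.le_div_iff_mul_le hq, mul_comm]
        omega
      · intro p hp h6
        apply h4 p hp
        have h7 := h6.2
        simp only at h7
        rwa [add_comm, h5] at h7
    · intro m hm m' hm' h
      rw [mem_coe, mem_filter] at hm hm'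
      simp only at h
      have e1 := Nat.div_add_mod m q
      have e2 := Nat.div_add_mod m' q
      rw [hm.2.1, h] at e1
      rw [hm'.2.1] at e2
      omega
  have h2 : {n ∈ Ioc N0 N1 | ∀ p ∈ pz y, ¬ Qp Q a q p n}.card +
      {n ∈ Icc 1 N0 | ∀ p ∈ pz y, ¬ Qp Q a q p n}.card ≤
      {n ∈ Icc 1 N1 | ∀ p ∈ pz y, ¬ Qp Q a q p n}.card := by
    rw [← card_union_of_disjoint]
    · apply card_le_card
      intro n hn
      rw [mem_union, mem_filter, mem_filter, mem_Ioc, mem_Icc] at hn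
      rw [mem_filter, mem_Icc]
      rcases hn with hn | hn
      · exact ⟨⟨by omega, hn.1.2⟩, hn.2⟩
      · exact ⟨⟨hn.1.1, by omega⟩, hn.2⟩
    · rw [disjoint_left]
      intro n hn hn'
      rw [mem_filter, mem_Ioc] at hn
      rw [mem_filter, mem_Icc] at hn'
      omega
  have hV := Vq_Qp Q c hQ a q y hcop
  have hP := perB_Qp Q c hQ a q
  have h3 := (abs_le.1 (hF (Qp Q a q) hP N1)).2
  have h4 := (abs_le.1 (hF (Qp Q a q) hP N0)).1
  rw [hV] at h3 h4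
  have hV0 := Vq_nonneg Q y
  have hV1 := Vq_le_one Q y
  set V := Vq Q y with hVdef
  have h12 : (({m ∈ Ioc X (2 * X) | m % q = a ∧ ∀ p ∈ pz y, ¬ Q p m}.card : ℕ) : ℝ) +
      (({n ∈ Icc 1 N0 | ∀ p ∈ pz y, ¬ Qp Q a q p n}.card : ℕ) : ℝ) ≤
      (({n ∈ Icc 1 N1 | ∀ p ∈ pz y, ¬ Qp Q a q p n}.card : ℕ) : ℝ) := by
    exact_mod_cast (Nat.add_le_add_right h1 _).trans h2
  have hq' : (0 : ℝ) < q := by exact_mod_cast hq
  have hXa : a ≤ X := by omega
  -- sizes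
  have g1 : (N1 : ℝ) ≤ (2 * X - a) / q := by
    rw [le_div_iff₀ hq']
    have : N1 * q ≤ 2 * X - a := by rw [hN1]; exact Nat.div_mul_le_self _ _
    have h : (N1 * q + a : ℕ) ≤ 2 * X := by omega
    have h' : ((N1 * q + a : ℕ) : ℝ) ≤ ((2 * X : ℕ) : ℝ) := by exact_mod_cast h
    push_cast at h'
    linarith
  have g2 : ((X : ℝ) - a) / q - 1 ≤ N0 := by
    rw [sub_le_iff_le_add, div_le_iff₀ hq']
    have h : X - a < (N0 + 1) * q := by
      have := Nat.lt_mul_div_succ (X - a) hq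
      rw [hN0]
      rw [mul_comm] at this
      exact this
    have h' : (X : ℕ) < (N0 + 1) * q + a := by omega
    have h'' : ((X : ℕ) : ℝ) < (((N0 + 1) * q + a : ℕ) : ℝ) := by exact_mod_cast h'
    push_cast at h''
    linarith
  have g3 : (N0 : ℝ) ≤ (X - a) / q := by
    rw [le_div_iff₀ hq']
    have : N0 * q ≤ X - a := by rw [hN0]; exact Nat.div_mul_le_self _ _
    have h : (N0 * q + a : ℕ) ≤ X := by omega
    have h' : ((N0 * q + a : ℕ) : ℝ) ≤ ((X : ℕ) : ℝ) := by exact_mod_cast h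
    push_cast at h'
    linarith
  have ha0 : (0 : ℝ) ≤ (a : ℝ) / q := by positivity
  have e1 : (2 * (X : ℝ) - a) / q = 2 * (X / q) - a / q := by ring
  have e2 : ((X : ℝ) - a) / q = X / q - a / q := by ring
  rw [e1] at g1
  rw [e2] at g2 g3
  have e3 : (1 + 3 * ε) * (X * V) / q = (1 + 3 * ε) * (X / q * V) := by ring
  rw [e3]
  obtain ⟨u, hu⟩ : ∃ u : ℝ, u = (X : ℝ) / q := ⟨_, rfl⟩
  rw [← hu] at g1 g2 g3 ⊢
  have k1 : ((N1 : ℝ) - N0) * V ≤ (u + 1) * V := mul_le_mul_of_nonneg_right (by linarith) hV0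
  have k2 : ε * (((N1 : ℝ) + N0) * V) ≤ ε * (3 * u * V) :=
    mul_le_mul_of_nonneg_left (mul_le_mul_of_nonneg_right (by linarith) hV0) hε
  nlinarith

/-- the sifted set -/
noncomputable def Sift {ι : Type} (f : ι → ℤ[X]) (y X : ℕ) : Finset ℕ := by
  classical
  exact {m ∈ Ioc X (2 * X) | ∀ p ∈ pz y, ¬ Q f p m}

lemma mem_Sift {ι : Type} (f : ι → ℤ[X]) (y X m : ℕ) :
    m ∈ Sift f y X ↔ (X < m ∧ m ≤ 2 * X) ∧ ∀ p ∈ pz y, ¬ Q f p m := by
  classical
  unfold Sift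
  rw [mem_filter, mem_Ioc]

variable {ι : Type} [Fintype ι]

open Classical in
/-- sifted integers with given prime divisors of one of the values -/
theorem count_T (c y : ℕ) (ε s : ℝ) (hε : 0 ≤ ε) (hF : Fund c y ε s) (f : ι → ℤ[X])
    (hQ : PerB (Q f) c) (X : ℕ) (g : ℤ[X]) (T : Finset ℕ) (hT : ∀ p ∈ T, p.Prime ∧ y < p)
    (hTX : ∏ p ∈ T, p ≤ X) :
    (((Sift f y X).filter (fun m : ℕ => ∀ p ∈ T, (p : ℤ) ∣ g.eval (m : ℤ))).card : ℝ) ≤
      (∏ p ∈ T, (rho g p : ℝ)) *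
        ((1 + 3 * ε) * (X * Vq (Q f) y) / ∏ p ∈ T, (p : ℝ) + (1 + 2 * s)) := by
  set q := ∏ p ∈ T, p with hq
  have hq0 : 0 < q := prod_pos fun p hp => (hT p hp).1.pos
  have hcop : ∀ p ∈ pz y, ¬ p ∣ q := by
    intro p hp hpq
    have hpp := (mem_pz.1 hp).2
    obtain ⟨l, hl, hpl⟩ := (Prime.dvd_finsetProd_iff hpp.prime _).1 hpq
    have h1 := (Nat.prime_dvd_prime_iff_eq hpp (hT l hl).1).1 hpl
    have h2 := (hT l hl).2
    have h3 := (mem_pz.1 hp).1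
    omega
  set R := (range q).filter (fun b => ∀ p ∈ T, ((p : ℤ) ∣ g.eval ((b % p : ℕ) : ℤ))) with hR
  have hRcard : R.card = ∏ p ∈ T, rho g p := by
    have := Pool.Agent.H474R2.GE.card_crt T (fun p hp => (hT p hp).1)
      (fun p b => (p : ℤ) ∣ g.eval (b : ℤ))
    rw [hR]
    refine (Eq.trans ?_ this).trans ?_
    · congr
    · apply prod_congr rfl
      intro p _
      unfold rho
      congr
  have hsub : (Sift f y X).filter (fun m : ℕ => ∀ p ∈ T, (p : ℤ) ∣ g.eval (m : ℤ)) ⊆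
      R.biUnion (fun a => {m ∈ Ioc X (2 * X) | m % q = a ∧ ∀ p ∈ pz y, ¬ Q f p m}) := by
    intro m hm
    rw [mem_filter, mem_Sift] at hm
    rw [mem_biUnion]
    refine ⟨m % q, ?_, ?_⟩
    · rw [hR, mem_filter, mem_range]
      refine ⟨Nat.mod_lt _ hq0, fun p hp => ?_⟩
      rw [Nat.mod_mod_of_dvd m (dvd_prod_of_mem _ hp)]
      exact (per1 g p m).1 (hm.2 p hp)
    · rw [mem_filter, mem_Ioc]
      exact ⟨hm.1.1, rfl, hm.1.2⟩
  have h1 := (card_le_card hsub).trans card_biUnion_le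
  have h2 : (((Sift f y X).filter (fun m : ℕ => ∀ p ∈ T, (p : ℤ) ∣ g.eval (m : ℤ))).card : ℝ) ≤
      ∑ a ∈ R, (({m ∈ Ioc X (2 * X) | m % q = a ∧ ∀ p ∈ pz y, ¬ Q f p m}.card : ℕ) : ℝ) := by
    exact_mod_cast h1
  refine h2.trans ?_
  have h3 : ∀ a ∈ R, (({m ∈ Ioc X (2 * X) | m % q = a ∧ ∀ p ∈ pz y, ¬ Q f p m}.card : ℕ) : ℝ) ≤
      (1 + 3 * ε) * (X * Vq (Q f) y) / q + (1 + 2 * s) := by
    intro a ha
    rw [hR, mem_filter, mem_range] at ha
    exact count_prog c y ε s hε hF (Q f) hQ X q a hq0 ha.1 hTX hcop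
  refine (sum_le_sum h3).trans ?_
  rw [sum_const, nsmul_eq_mul, hRcard]
  push_cast
  rw [hq]
  push_cast
  exact le_rfl

end Pool.Agent.H32.LP
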