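import Pool.Graph.R_seed8.TH464.PW.Input
import Pool.Graph.R_seed8.H484R2.Pit
import Pool.Graph.R_seed8.H484R2.Start
import Pool.Graph.R_seed8.H332R2.PIT.Main

/-!
# Prime sums weighted by the number of the roots of a polynomial
-/

set_option autoImplicit false

namespace Pool.Agent.H32.LP

open Finset Polynomial Filter
open Pool.Agent.H373R2.T7 Pool.Agent.H474R2.PG

/-- the prime ideal theorem as an upper bound for the weighted theta function -/
theorem theta_le (f : ℤ[X]) (hf : Irreducible f) (hd : 0 < f.natDegree) (ε : ℝ) (hε : 0 < ε) :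
    ∃ C : ℝ, 0 ≤ C ∧ ∀ n : ℕ, ∑ p ∈ pz n, (rho f p : ℝ) * Real.log p ≤ (1 + ε) * n + C := by
  classical
  obtain ⟨K, hK1, hK2, B, hB⟩ := Pool.Agent.H474R2.GE.rho_le_homs f hf hd
  have hcont : H332.PIT.Cont K := Pool.Agent.H484R2.continuation K
  have hT := H332.PIT.TT_tendsto hcont
  have h1 : ∀ᶠ n : ℕ in atTop, H332.PIT.TT K n / n < 1 + ε :=
    hT.eventually (gt_mem_nhds (by linarith))
  obtain ⟨n₀, hn₀⟩ := eventually_atTop.mp h1
  set C1 : ℝ := ∑ p ∈ pz B, (rho f p : ℝ) * Real.log p with hC1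
  set C2 : ℝ := ∑ p ∈ pz (n₀ + 1), (rho f p : ℝ) * Real.log p with hC2
  have hnn : ∀ p : ℕ, 0 ≤ (rho f p : ℝ) * Real.log p := fun p =>
    mul_nonneg (Nat.cast_nonneg _) (Real.log_natCast_nonneg p)
  have hC10 : 0 ≤ C1 := sum_nonneg fun p _ => hnn p
  have hC20 : 0 ≤ C2 := sum_nonneg fun p _ => hnn p
  refine ⟨C1 + C2, by positivity, fun n => ?_⟩
  have hn0 : (0 : ℝ) ≤ n := Nat.cast_nonneg n
  rcases le_or_gt n (n₀ + 1) with h | h
  · have h2 : ∑ p ∈ pz n, (rho f p : ℝ) * Real.log p ≤ C2 := by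
      apply sum_le_sum_of_subset_of_nonneg
      · intro p hp
        rw [mem_pz] at hp ⊢
        exact ⟨hp.1.trans h, hp.2⟩
      · intro p _ _
        exact hnn p
    have : 0 ≤ (1 + ε) * n := by positivity
    linarith
  · have h2 : ∑ p ∈ pz n, (rho f p : ℝ) * Real.log p ≤ H332.PIT.TT K n + C1 := by
      have h3 : ∀ p ∈ pz n, (rho f p : ℝ) * Real.log p ≤
          (Nat.card (NumberField.RingOfIntegers K →+* ZMod p) : ℝ) * Real.log p +
          (if p ≤ B then (rho f p : ℝ) * Real.log p else 0) := by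
        intro p hp
        have hlog := Real.log_natCast_nonneg p
        split_ifs with hpB
        · have : 0 ≤ (Nat.card (NumberField.RingOfIntegers K →+* ZMod p) : ℝ) * Real.log p := by
            positivity
          linarith
        · rw [add_zero]
          apply mul_le_mul_of_nonneg_right _ hlog
          exact_mod_cast hB p (mem_pz.1 hp).2 (by omega)
      refine (sum_le_sum h3).trans ?_
      rw [sum_add_distrib]
      apply add_le_add
      · unfold H332.PIT.TT
        apply le_of_eq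
        apply sum_congr _ fun _ _ => rfl
        ext p
        rw [mem_pz, mem_filter, mem_range]
        constructor
        · rintro ⟨h4, h5⟩; exact ⟨by omega, h5⟩
        · rintro ⟨h4, h5⟩; exact ⟨by omega, h5⟩
      · rw [← sum_filter]
        apply sum_le_sum_of_subset_of_nonneg
        · intro p hp
          rw [mem_filter, mem_pz] at hp
          exact mem_pz.2 ⟨hp.2, hp.1.2⟩
        · intro p _ _
          exact hnn p
    have h3 := hn₀ n (by omega)
    have hnpos : (0 : ℝ) < n := by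
      have : 0 < n := by omega
      exact_mod_cast this
    rw [div_lt_iff₀ hnpos] at h3
    linarith

/-- partial summation -/
theorem abel (a : ℕ → ℝ) (A C : ℝ) (hA : 0 ≤ A) (hC : 0 ≤ C)
    (h : ∀ n : ℕ, ∑ p ∈ pz n, a p ≤ A * n + C) (N : ℕ) (hN : 1 ≤ N) :
    ∑ p ∈ pz N, a p / p ≤ A * Real.log N + A + C := by
  have hpz : ∀ n : ℕ, pz (n + 1) = if (n + 1).Prime then insert (n + 1) (pz n) else pz n := by
    intro n
    ext p
    split_ifs with hp
    · rw [mem_insert, mem_pz, mem_pz]
      constructor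
      · rintro ⟨h1, h2⟩
        by_cases h3 : p = n + 1
        · exact Or.inl h3
        · exact Or.inr ⟨by omega, h2⟩
      · rintro (h1 | ⟨h1, h2⟩)
        · rw [h1]; exact ⟨le_rfl, hp⟩
        · exact ⟨by omega, h2⟩
    · rw [mem_pz, mem_pz]
      constructor
      · rintro ⟨h1, h2⟩
        refine ⟨?_, h2⟩
        rcases Nat.lt_or_ge n p with h3 | h3
        · exact absurd (show (n + 1).Prime by have : p = n + 1 := by omega
                                              rwa [this] at h2) hp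
        · exact h3
      · rintro ⟨h1, h2⟩
        exact ⟨by omega, h2⟩
  have hnot : ∀ n : ℕ, n + 1 ∉ pz n := fun n hn => by
    have := (mem_pz.1 hn).1
    omega
  have key : ∀ N : ℕ, ∑ p ∈ pz (N + 1), a p / p - (∑ p ∈ pz (N + 1), a p) / ((N + 1 : ℕ) : ℝ) ≤
      A * Real.log ((N + 1 : ℕ) : ℝ) + C * (1 - 1 / ((N + 1 : ℕ) : ℝ)) := by
    intro N
    induction N with
    | zero =>
      have h1 : pz (0 + 1) = ∅ := by
        ext p
        rw [mem_pz]
        constructor
        · rintro ⟨h1, h2⟩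
          have := h2.two_le
          omega
        · intro h1
          exact absurd h1 (notMem_empty p)
      rw [h1]
      simp
    | succ N ih =>
      set S := ∑ p ∈ pz (N + 1), a p / p with hS
      set T := ∑ p ∈ pz (N + 1), a p with hT
      have hT' := h (N + 1)
      rw [← hT] at hT'
      have h1 : (0 : ℝ) < ((N + 1 : ℕ) : ℝ) := by positivity
      have h2 : ((N + 1 + 1 : ℕ) : ℝ) = ((N + 1 : ℕ) : ℝ) + 1 := by push_cast; ring
      obtain ⟨x, hx⟩ : ∃ x : ℝ, x = ((N + 1 : ℕ) : ℝ) := ⟨_, rfl⟩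
      rw [← hx] at hT' h1 ih
      rw [h2, ← hx]
      have e1 : ∑ p ∈ pz (N + 1 + 1), a p / p - (∑ p ∈ pz (N + 1 + 1), a p) / (x + 1) =
          S - T / (x + 1) := by
        rw [hpz (N + 1)]
        split_ifs with hp
        · rw [sum_insert (hnot _), sum_insert (hnot _), ← hS, ← hT, h2, ← hx]
          field_simp
          ring
        · rw [← hS, ← hT]
      rw [e1]
      have hx1 : 0 < x + 1 := by linarith
      have e2 : S - T / (x + 1) = (S - T / x) + T / (x * (x + 1)) := by
        field_simp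
        ring
      rw [e2]
      have e3 : T / (x * (x + 1)) ≤ (A * x + C) / (x * (x + 1)) := by
        gcongr
      have e4 : (A * x + C) / (x * (x + 1)) = A * (1 / (x + 1)) + C * (1 / x - 1 / (x + 1)) := by
        field_simp
        ring
      have e5 : 1 / (x + 1) ≤ Real.log (x + 1) - Real.log x := by
        rw [← Real.log_div hx1.ne' h1.ne']
        have := Real.one_sub_inv_le_log_of_pos (x := (x + 1) / x) (by positivity)
        refine le_trans (le_of_eq ?_) this
        field_simp
        ring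
      have e6 : A * (1 / (x + 1)) ≤ A * (Real.log (x + 1) - Real.log x) :=
        mul_le_mul_of_nonneg_left e5 hA
      rw [e4] at e3
      nlinarith
  obtain ⟨M, rfl⟩ : ∃ M, N = M + 1 := ⟨N - 1, by omega⟩
  have h1 := key M
  have h2 := h (M + 1)
  have h3 : (0 : ℝ) < ((M + 1 : ℕ) : ℝ) := by positivity
  have h4 : (∑ p ∈ pz (M + 1), a p) / ((M + 1 : ℕ) : ℝ) ≤ A + C / ((M + 1 : ℕ) : ℝ) := by
    rw [div_le_iff₀ h3, add_mul, div_mul_cancel₀ _ h3.ne']
    exact h2
  have h5 : C * (1 - 1 / ((M + 1 : ℕ) : ℝ)) = C - C / ((M + 1 : ℕ) : ℝ) := by ring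
  linarith

/-- the sum of `ρ(p) log p / p` -/
theorem sum_le (f : ℤ[X]) (hf : Irreducible f) (hd : 0 < f.natDegree) (ε : ℝ) (hε : 0 < ε) :
    ∃ C : ℝ, 0 ≤ C ∧ ∀ N : ℕ, 1 ≤ N →
      ∑ p ∈ pz N, (rho f p : ℝ) * Real.log p / p ≤ (1 + ε) * Real.log N + C := by
  obtain ⟨C, hC, h⟩ := theta_le f hf hd ε hε
  refine ⟨1 + ε + C, by positivity, fun N hN => ?_⟩
  have := abel (fun p => (rho f p : ℝ) * Real.log p) (1 + ε) C (by linarith) hC h N hN
  linarith

end Pool.Agent.H32.LP
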